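import Mathlib
import Pool.Agent.H631R2.Arith

set_option autoImplicit false

/-!
# A forcing notion adding many trees
-/

namespace Pool.Agent.R582.SB

open Set

/-- the nodes of the trees -/
abbrev Nd := List ℕ

/-- The tree coded by two sets of pairs (node, natural number), restricted to a set `D`: a node
belongs to it if every initial segment `t` of it occurs, for some `i`, as `(t, i)` in both sets. -/
def Tr (D : Finset (Nd × ℕ)) (x y : Nd × ℕ → Prop) : Set Nd :=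
  {s | ∀ t, t <+: s → ∃ i, (t, i) ∈ D ∧ x (t, i) ∧ y (t, i)}

theorem Tr.ofInit {D : Finset (Nd × ℕ)} {x y : Nd × ℕ → Prop} {s t : Nd} (h : s ∈ Tr D x y)
    (ht : t <+: s) : t ∈ Tr D x y := fun u hu => h u (hu.trans ht)

theorem Tr.mono {D D' : Finset (Nd × ℕ)} {x y x' y' : Nd × ℕ → Prop} (hD : D ⊆ D')
    (hx : ∀ a ∈ D, (x' a ↔ x a)) (hy : ∀ a ∈ D, (y' a ↔ y a)) : Tr D x y ⊆ Tr D' x' y' := by
  intro s hs t ht
  obtain ⟨i, hi, h1, h2⟩ := hs t ht
  exact ⟨i, hD hi, (hx _ hi).2 h1, (hy _ hi).2 h2⟩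

theorem Tr.length_le {D : Finset (Nd × ℕ)} {x y : Nd × ℕ → Prop} {s : Nd} (h : s ∈ Tr D x y) :
    s.length ≤ D.sup fun a => a.1.length := by
  obtain ⟨i, hi, -⟩ := h s List.prefix_rfl
  exact Finset.le_sup (f := fun a : Nd × ℕ => a.1.length) hi

variable (Bx Γ W : Type) [LinearOrder W] (α : Bx → W)

/-- The conditions: finite sets `F` and `E` of indices, finite approximations (on the set `D`) of
the sets `x β`, `β ∈ F`, and `y γ`, `γ ∈ E`, and for `β ∈ F` and `γ ∈ E` a rank function `r β γ`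
on the finite tree coded by `x β` and `y γ`, with values below `α β` or `⊤`: the values decrease
strictly along the tree, except that `⊤` may be followed by `⊤`. -/
structure Cnd where
  F : Finset Bx
  E : Finset Γ
  D : Finset (Nd × ℕ)
  x : Bx → Nd × ℕ → Prop
  y : Γ → Nd × ℕ → Prop
  r : Bx → Γ → Nd → WithTop W
  mono : ∀ β ∈ F, ∀ γ ∈ E, ∀ s ∈ Tr D (x β) (y γ), ∀ t ∈ Tr D (x β) (y γ), s <+: t → s ≠ t →
    r β γ s = ⊤ ∨ r β γ t < r β γ s
  bd : ∀ β ∈ F, ∀ γ ∈ E, ∀ s ∈ Tr D (x β) (y γ), r β γ s = ⊤ ∨ r β γ s < (α β : WithTop W)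

variable {Bx Γ W α}

theorem Cnd.tr_mono {p q : Cnd Bx Γ W α} (hD : p.D ⊆ q.D)
    (hx : ∀ β ∈ p.F, ∀ a ∈ p.D, (q.x β a ↔ p.x β a)) (hy : ∀ γ ∈ p.E, ∀ a ∈ p.D, (q.y γ a ↔ p.y γ a))
    {β : Bx} (hβ : β ∈ p.F) {γ : Γ} (hγ : γ ∈ p.E) :
    Tr p.D (p.x β) (p.y γ) ⊆ Tr q.D (q.x β) (q.y γ) :=
  Tr.mono hD (hx β hβ) (hy γ hγ)

/-- `q ≤ p` if `q` extends `p`. -/
instance : Preorder (Cnd Bx Γ W α) where
  le q p := p.F ⊆ q.F ∧ p.E ⊆ q.E ∧ p.D ⊆ q.D ∧ (∀ β ∈ p.F, ∀ a ∈ p.D, (q.x β a ↔ p.x β a)) ∧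
    (∀ γ ∈ p.E, ∀ a ∈ p.D, (q.y γ a ↔ p.y γ a)) ∧
    ∀ β ∈ p.F, ∀ γ ∈ p.E, ∀ s ∈ Tr p.D (p.x β) (p.y γ), q.r β γ s = p.r β γ s
  le_refl p := ⟨subset_rfl, subset_rfl, subset_rfl, fun _ _ _ _ => Iff.rfl, fun _ _ _ _ => Iff.rfl,
    fun _ _ _ _ _ _ => rfl⟩
  le_trans u q p := by
    rintro ⟨h1, h2, h3, h4, h5, h6⟩ ⟨k1, k2, k3, k4, k5, k6⟩
    refine ⟨k1.trans h1, k2.trans h2, k3.trans h3, fun β hβ a ha => (h4 β (k1 hβ) a (k3 ha)).trans
      (k4 β hβ a ha), fun γ hγ a ha => (h5 γ (k2 hγ) a (k3 ha)).trans (k5 γ hγ a ha), ?_⟩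
    intro β hβ γ hγ s hs
    rw [h6 β (k1 hβ) γ (k2 hγ) s (Cnd.tr_mono k3 k4 k5 hβ hγ hs), k6 β hβ γ hγ s hs]

theorem le_tr {p q : Cnd Bx Γ W α} (h : q ≤ p) {β : Bx} (hβ : β ∈ p.F) {γ : Γ} (hγ : γ ∈ p.E) :
    Tr p.D (p.x β) (p.y γ) ⊆ Tr q.D (q.x β) (q.y γ) := Cnd.tr_mono h.2.2.1 h.2.2.2.1 h.2.2.2.2.1 hβ hγ

theorem tr_false_left {D : Finset (Nd × ℕ)} {y : Nd × ℕ → Prop} :
    Tr D (fun _ => False) y = ∅ := by
  ext s
  simp only [Tr, mem_setOf_eq, false_and, and_false, exists_false, mem_empty_iff_false, iff_false]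
  intro h
  exact h s List.prefix_rfl

theorem tr_false_right {D : Finset (Nd × ℕ)} {x : Nd × ℕ → Prop} :
    Tr D x (fun _ => False) = ∅ := by
  ext s
  simp only [Tr, mem_setOf_eq, and_false, exists_false, mem_empty_iff_false, iff_false]
  intro h
  exact h s List.prefix_rfl

open Classical in
/-- add an index to `F` -/
noncomputable def Cnd.addF (p : Cnd Bx Γ W α) (β₀ : Bx) : Cnd Bx Γ W α where
  F := insert β₀ p.F
  E := p.E
  D := p.D
  x β := if β ∈ p.F then p.x β else fun _ => False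
  y := p.y
  r := p.r
  mono := by
    intro β hβ γ hγ s hs t ht
    by_cases h : β ∈ p.F
    · rw [if_pos h] at hs ht
      exact p.mono β h γ hγ s hs t ht
    · rw [if_neg h, tr_false_left] at hs
      exact absurd hs (notMem_empty _)
  bd := by
    intro β hβ γ hγ s hs
    by_cases h : β ∈ p.F
    · rw [if_pos h] at hs
      exact p.bd β h γ hγ s hs
    · rw [if_neg h, tr_false_left] at hs
      exact absurd hs (notMem_empty _)

theorem Cnd.addF_le (p : Cnd Bx Γ W α) (β₀ : Bx) : p.addF β₀ ≤ p := by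
  classical
  refine ⟨Finset.subset_insert _ _, subset_rfl, subset_rfl, fun β hβ a _ => ?_,
    fun _ _ _ _ => Iff.rfl, fun _ _ _ _ _ _ => rfl⟩
  simp only [Cnd.addF, if_pos hβ]

open Classical in
/-- add an index to `E` -/
noncomputable def Cnd.addE (p : Cnd Bx Γ W α) (γ₀ : Γ) : Cnd Bx Γ W α where
  F := p.F
  E := insert γ₀ p.E
  D := p.D
  x := p.x
  y γ := if γ ∈ p.E then p.y γ else fun _ => False
  r := p.r
  mono := by
    intro β hβ γ hγ s hs t ht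
    by_cases h : γ ∈ p.E
    · rw [if_pos h] at hs ht
      exact p.mono β hβ γ h s hs t ht
    · rw [if_neg h, tr_false_right] at hs
      exact absurd hs (notMem_empty _)
  bd := by
    intro β hβ γ hγ s hs
    by_cases h : γ ∈ p.E
    · rw [if_pos h] at hs
      exact p.bd β hβ γ h s hs
    · rw [if_neg h, tr_false_right] at hs
      exact absurd hs (notMem_empty _)

theorem Cnd.addE_le (p : Cnd Bx Γ W α) (γ₀ : Γ) : p.addE γ₀ ≤ p := by
  classical
  refine ⟨subset_rfl, Finset.subset_insert _ _, subset_rfl, fun _ _ _ _ => Iff.rfl,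
    fun γ hγ a _ => ?_, fun _ _ _ _ _ _ => rfl⟩
  simp only [Cnd.addE, if_pos hγ]

/-- The node `s` can be added to the tree of `β₀` and `γ₀` with the value `τ`: all its proper initial
segments belong to the tree, no node of it occurs above it in the approximations, and `τ` is an
admissible value. -/
structure Ok (p : Cnd Bx Γ W α) (β₀ : Bx) (γ₀ : Γ) (s : Nd) (τ : WithTop W) : Prop where
  hβ : β₀ ∈ p.F
  hγ : γ₀ ∈ p.E
  new : ∀ a ∈ p.D, p.x β₀ a → p.y γ₀ a → ¬ s <+: a.1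
  old : ∀ t, t <+: s → t ≠ s → t ∈ Tr p.D (p.x β₀) (p.y γ₀)
  val : ∀ t, t <+: s → t ≠ s → p.r β₀ γ₀ t = ⊤ ∨ τ < p.r β₀ γ₀ t
  bd : τ = ⊤ ∨ τ < (α β₀ : WithTop W)

open Classical in
/-- the tree after adding the node `s` to the pair `β₀`, `γ₀` -/
theorem tr_add {p : Cnd Bx Γ W α} {β₀ : Bx} {γ₀ : Γ} {s : Nd} {τ : WithTop W} (h : Ok p β₀ γ₀ s τ)
    {i : ℕ} (hi : (s, i) ∉ p.D) {β : Bx} {γ : Γ} {t : Nd}
    (ht : t ∈ Tr (insert (s, i) p.D) (fun a => if a = (s, i) then β = β₀ else p.x β a)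
      (fun a => if a = (s, i) then γ = γ₀ else p.y γ a)) :
    t ∈ Tr p.D (p.x β) (p.y γ) ∨ (β = β₀ ∧ γ = γ₀ ∧ t = s) := by
  by_cases hp : β = β₀ ∧ γ = γ₀
  · obtain ⟨rfl, rfl⟩ := hp
    -- every initial segment of `t` either occurs in `p` or is `s`
    have h1 : ∀ u, u <+: t → u ≠ s → ∃ j, (u, j) ∈ p.D ∧ p.x β (u, j) ∧ p.y γ (u, j) := by
      intro u hu hus
      obtain ⟨j, hj, hx, hy⟩ := ht u hu
      have hne : (u, j) ≠ (s, i) := fun h' => hus (congrArg Prod.fst h')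
      rw [if_neg hne] at hx hy
      rcases Finset.mem_insert.1 hj with h' | h'
      · exact absurd h' hne
      · exact ⟨j, h', hx, hy⟩
    by_cases hst : s <+: t
    · right
      refine ⟨rfl, rfl, ?_⟩
      by_contra hne
      obtain ⟨j, hj, hx, hy⟩ := h1 t List.prefix_rfl hne
      exact h.new _ hj hx hy hst
    · left
      intro u hu
      exact h1 u hu (fun h' => hst (h' ▸ hu))
  · left
    intro u hu
    obtain ⟨j, hj, hx, hy⟩ := ht u hu
    by_cases h' : (u, j) = (s, i)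
    · rw [if_pos h'] at hx hy
      exact absurd ⟨hx, hy⟩ hp
    · rw [if_neg h'] at hx hy
      rcases Finset.mem_insert.1 hj with h'' | h''
      · exact absurd h'' h'
      · exact ⟨j, h'', hx, hy⟩

open Classical in
/-- add the node `s` to the tree of `β₀` and `γ₀` with the value `τ` -/
noncomputable def Cnd.addN (p : Cnd Bx Γ W α) {β₀ : Bx} {γ₀ : Γ} {s : Nd} {τ : WithTop W}
    (h : Ok p β₀ γ₀ s τ) (i : ℕ) (hi : (s, i) ∉ p.D) : Cnd Bx Γ W α where
  F := p.F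
  E := p.E
  D := insert (s, i) p.D
  x β a := if a = (s, i) then β = β₀ else p.x β a
  y γ a := if a = (s, i) then γ = γ₀ else p.y γ a
  r β γ t := if β = β₀ ∧ γ = γ₀ ∧ t = s then τ else p.r β γ t
  mono := by
    intro β hβ γ hγ t ht u hu htu hne
    have h1 := tr_add h hi ht
    have h2 := tr_add h hi hu
    by_cases c1 : β = β₀ ∧ γ = γ₀ ∧ t = s
    · obtain ⟨rfl, rfl, rfl⟩ := c1
      -- `u` is a proper extension of `t = s`
      exfalso
      rcases h2 with h2 | h2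
      · obtain ⟨j, hj, hx, hy⟩ := h2 u List.prefix_rfl
        exact h.new _ hj hx hy htu
      · exact hne h2.2.2.symm
    · rw [if_neg c1]
      have h1' : t ∈ Tr p.D (p.x β) (p.y γ) := h1.resolve_right c1
      by_cases c2 : β = β₀ ∧ γ = γ₀ ∧ u = s
      · rw [if_pos c2]
        obtain ⟨rfl, rfl, rfl⟩ := c2
        exact h.val t htu hne
      · rw [if_neg c2]
        exact p.mono β hβ γ hγ t h1' u (h2.resolve_right c2) htu hne
  bd := by
    intro β hβ γ hγ t ht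
    have h1 := tr_add h hi ht
    by_cases c1 : β = β₀ ∧ γ = γ₀ ∧ t = s
    · rw [if_pos c1, c1.1]
      exact h.bd
    · rw [if_neg c1]
      exact p.bd β hβ γ hγ t (h1.resolve_right c1)

section

variable {p : Cnd Bx Γ W α} {β₀ : Bx} {γ₀ : Γ} {s : Nd} {τ : WithTop W}

/-- a node which can be added is not in the tree -/
theorem Ok.notMem (h : Ok p β₀ γ₀ s τ) : s ∉ Tr p.D (p.x β₀) (p.y γ₀) := by
  intro hs
  obtain ⟨j, hj, hx, hy⟩ := hs s List.prefix_rfl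
  exact h.new _ hj hx hy List.prefix_rfl

theorem Cnd.addN_le (h : Ok p β₀ γ₀ s τ) (i : ℕ) (hi : (s, i) ∉ p.D) : p.addN h i hi ≤ p := by
  classical
  refine ⟨subset_rfl, subset_rfl, Finset.subset_insert _ _, fun β _ a ha => ?_, fun γ _ a ha => ?_,
    fun β _ γ _ t ht => ?_⟩
  · have : a ≠ (s, i) := fun h' => hi (h' ▸ ha)
    simp only [Cnd.addN, if_neg this]
  · have : a ≠ (s, i) := fun h' => hi (h' ▸ ha)
    simp only [Cnd.addN, if_neg this]
  · simp only [Cnd.addN]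
    rw [if_neg]
    rintro ⟨rfl, rfl, rfl⟩
    exact h.notMem ht

theorem Cnd.addN_mem (h : Ok p β₀ γ₀ s τ) (i : ℕ) (hi : (s, i) ∉ p.D) :
    s ∈ Tr (p.addN h i hi).D ((p.addN h i hi).x β₀) ((p.addN h i hi).y γ₀) := by
  classical
  intro t ht
  by_cases hts : t = s
  · subst hts
    exact ⟨i, Finset.mem_insert_self _ _, by simp [Cnd.addN], by simp [Cnd.addN]⟩
  · have h1 := h.old t ht hts
    exact (le_tr (p.addN_le h i hi) h.hβ h.hγ h1) t List.prefix_rfl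

theorem Cnd.addN_val (h : Ok p β₀ γ₀ s τ) (i : ℕ) (hi : (s, i) ∉ p.D) :
    (p.addN h i hi).r β₀ γ₀ s = τ := by
  classical
  simp [Cnd.addN]

theorem exists_fresh (D : Finset (Nd × ℕ)) (s : Nd) : ∃ i, (s, i) ∉ D := by
  classical
  obtain ⟨i, hi⟩ := Infinite.exists_notMem_finset (D.image Prod.snd)
  exact ⟨i, fun h => hi (Finset.mem_image_of_mem _ h)⟩

end

end Pool.Agent.R582.SB
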