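import Mathlib
import Pool.Agent.R582.SB.Poset

set_option autoImplicit false

/-!
# The countable chain condition
-/

namespace Pool.Agent.R582.SB

open Set Cardinal
open Pool.Agent.Helper292.SP (pigeon delta_sys)
open Pool.Agent.H631R2 (CCC)

variable {Bx Γ W : Type} [LinearOrder W] {α : Bx → W}

theorem Tr.congr {D : Finset (Nd × ℕ)} {x y x' y' : Nd × ℕ → Prop}
    (hx : ∀ a ∈ D, (x' a ↔ x a)) (hy : ∀ a ∈ D, (y' a ↔ y a)) : Tr D x' y' = Tr D x y :=
  subset_antisymm (Tr.mono (Finset.Subset.refl D) (fun a ha => (hx a ha).symm)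
    (fun a ha => (hy a ha).symm)) (Tr.mono (Finset.Subset.refl D) hx hy)

theorem compat {p p' : Cnd Bx Γ W α} (hD : p.D = p'.D)
    (hx : ∀ β ∈ p.F, β ∈ p'.F → ∀ a ∈ p.D, (p.x β a ↔ p'.x β a))
    (hy : ∀ γ ∈ p.E, γ ∈ p'.E → ∀ a ∈ p.D, (p.y γ a ↔ p'.y γ a))
    (hr : ∀ β ∈ p.F, β ∈ p'.F → ∀ γ ∈ p.E, γ ∈ p'.E → ∀ s ∈ Tr p'.D (p'.x β) (p'.y γ),
      p.r β γ s = p'.r β γ s) : ∃ q, q ≤ p ∧ q ≤ p' := by
  classical
  have htr : ∀ β γ, β ∈ p'.F → γ ∈ p'.E →
      Tr p.D (if β ∈ p.F then p.x β else p'.x β) (if γ ∈ p.E then p.y γ else p'.y γ) =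
        Tr p'.D (p'.x β) (p'.y γ) := by
    intro β γ hβ hγ
    rw [← hD]
    apply Tr.congr
    · intro a ha
      split_ifs with h
      · exact hx β h hβ a ha
      · exact Iff.rfl
    · intro a ha
      split_ifs with h
      · exact hy γ h hγ a ha
      · exact Iff.rfl
  let q : Cnd Bx Γ W α :=
    { F := p.F ∪ p'.F
      E := p.E ∪ p'.E
      D := p.D
      x := fun β => if β ∈ p.F then p.x β else p'.x β
      y := fun γ => if γ ∈ p.E then p.y γ else p'.y γ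
      r := fun β γ s => if β ∈ p.F ∧ γ ∈ p.E then p.r β γ s else
        if β ∈ p'.F ∧ γ ∈ p'.E then p'.r β γ s else ⊤
      mono := by
        intro β hβ γ hγ s hs t ht hst hne
        by_cases h1 : β ∈ p.F ∧ γ ∈ p.E
        · rw [if_pos h1.1, if_pos h1.2] at hs ht
          rw [if_pos h1, if_pos h1]
          exact p.mono β h1.1 γ h1.2 s hs t ht hst hne
        · rw [if_neg h1, if_neg h1]
          by_cases h2 : β ∈ p'.F ∧ γ ∈ p'.E
          · rw [htr β γ h2.1 h2.2] at hs ht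
            rw [if_pos h2, if_pos h2]
            exact p'.mono β h2.1 γ h2.2 s hs t ht hst hne
          · rw [if_neg h2]
            exact Or.inl rfl
      bd := by
        intro β hβ γ hγ s hs
        by_cases h1 : β ∈ p.F ∧ γ ∈ p.E
        · rw [if_pos h1.1, if_pos h1.2] at hs
          rw [if_pos h1]
          exact p.bd β h1.1 γ h1.2 s hs
        · rw [if_neg h1]
          by_cases h2 : β ∈ p'.F ∧ γ ∈ p'.E
          · rw [htr β γ h2.1 h2.2] at hs
            rw [if_pos h2]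
            exact p'.bd β h2.1 γ h2.2 s hs
          · rw [if_neg h2]
            exact Or.inl rfl }
  refine ⟨q, ⟨Finset.subset_union_left, Finset.subset_union_left, subset_rfl, ?_, ?_, ?_⟩,
    ⟨Finset.subset_union_right, Finset.subset_union_right, hD.ge, ?_, ?_, ?_⟩⟩
  · intro β hβ a _
    simp only [q, if_pos hβ]
  · intro γ hγ a _
    simp only [q, if_pos hγ]
  · intro β hβ γ hγ s _
    simp only [q, if_pos (And.intro hβ hγ)]
  · intro β hβ a ha
    by_cases h : β ∈ p.F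
    · simp only [q, if_pos h]
      exact hx β h hβ a (hD ▸ ha)
    · simp only [q, if_neg h]
  · intro γ hγ a ha
    by_cases h : γ ∈ p.E
    · simp only [q, if_pos h]
      exact hy γ h hγ a (hD ▸ ha)
    · simp only [q, if_neg h]
  · intro β hβ γ hγ s hs
    by_cases h : β ∈ p.F ∧ γ ∈ p.E
    · simp only [q, if_pos h]
      exact hr β h.1 hβ γ h.2 hγ s hs
    · simp only [q, if_neg h, if_pos (And.intro hβ hγ)]

theorem countable_sub {A : Type} {S : Set A} (hS : S.Countable) :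
    #{f : Finset A // ∀ q ∈ f, q ∈ S} ≤ ℵ₀ := by
  classical
  have : Countable S := hS.to_subtype
  have h : Function.Injective (fun f : {f : Finset A // ∀ q ∈ f, q ∈ S} =>
      f.1.subtype (· ∈ S)) := by
    intro f g hfg
    apply Subtype.ext
    ext a
    constructor
    · intro ha
      have : (⟨a, f.2 a ha⟩ : S) ∈ f.1.subtype (· ∈ S) := Finset.mem_subtype.2 ha
      rw [show f.1.subtype (· ∈ S) = g.1.subtype (· ∈ S) from hfg] at this
      exact Finset.mem_subtype.1 this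
    · intro ha
      have : (⟨a, g.2 a ha⟩ : S) ∈ g.1.subtype (· ∈ S) := Finset.mem_subtype.2 ha
      rw [← show f.1.subtype (· ∈ S) = g.1.subtype (· ∈ S) from hfg] at this
      exact Finset.mem_subtype.1 this
  exact (Cardinal.mk_le_of_injective h).trans Cardinal.mk_le_aleph0

theorem ccc (hW : ∀ w : W, (Iio w).Countable) : CCC (Cnd Bx Γ W α) := by
  classical
  intro S hS
  by_contra hcard
  obtain ⟨T, R, hTS, hT, hTR⟩ := delta_sys (χ := ℵ₀) (σ := ℵ₀) le_rfl le_rfl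
    (fun τ hτ => by
      obtain ⟨n, rfl⟩ := Cardinal.lt_aleph0.mp hτ
      exact Cardinal.power_nat_le le_rfl) S hcard
    (fun p : Cnd Bx Γ W α => ((p.F.image Sum.inl ∪ p.E.image Sum.inr : Finset (Bx ⊕ Γ)) :
      Set (Bx ⊕ Γ))) (fun p => (Finset.finite_toSet _).lt_aleph0)
  have two : ∀ (T2 : Set (Cnd Bx Γ W α)), (¬ #T2 ≤ ℵ₀) → ∃ e ∈ T2, ∃ e' ∈ T2, e ≠ e' := by
    intro T2 hT2
    have h1 : 1 < #T2 := Cardinal.one_lt_aleph0.trans (not_le.mp hT2)
    obtain ⟨⟨e, he⟩, ⟨e', he'⟩, hne⟩ := Cardinal.one_lt_iff_nontrivial.mp h1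
    exact ⟨e, he, e', he', fun h => hne (Subtype.ext h)⟩
  have hRc : R.Countable := by
    obtain ⟨e, he, e', he', hne⟩ := two T hT
    rw [← hTR e he e' he' hne]
    exact ((Finset.finite_toSet _).subset inter_subset_left).countable
  have hRl : {β : Bx | Sum.inl β ∈ R}.Countable := hRc.preimage Sum.inl_injective
  have hRr : {γ : Γ | Sum.inr γ ∈ R}.Countable := hRc.preimage Sum.inr_injective
  -- countable sets of data
  let Sx : Set (Bx × (Nd × ℕ)) := {q | Sum.inl q.1 ∈ R}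
  let Sy : Set (Γ × (Nd × ℕ)) := {q | Sum.inr q.1 ∈ R}
  let Sr : Set (Bx × Γ × Nd × WithTop W) := {q | Sum.inl q.1 ∈ R ∧ Sum.inr q.2.1 ∈ R ∧
    (q.2.2.2 = ⊤ ∨ q.2.2.2 < (α q.1 : WithTop W))}
  have hSx : Sx.Countable := by
    have : Sx ⊆ {β : Bx | Sum.inl β ∈ R} ×ˢ (univ : Set (Nd × ℕ)) := fun q hq => ⟨hq, trivial⟩
    exact (hRl.prod (Set.to_countable _)).mono this
  have hSy : Sy.Countable := by
    have : Sy ⊆ {γ : Γ | Sum.inr γ ∈ R} ×ˢ (univ : Set (Nd × ℕ)) := fun q hq => ⟨hq, trivial⟩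
    exact (hRr.prod (Set.to_countable _)).mono this
  have hSr : Sr.Countable := by
    have h1 : ∀ w : W, {t : WithTop W | t = ⊤ ∨ t < (w : WithTop W)}.Countable := by
      intro w
      have : {t : WithTop W | t = ⊤ ∨ t < (w : WithTop W)} ⊆
          insert ⊤ ((fun v : W => (v : WithTop W)) '' Iio w) := by
        rintro t (rfl | ht)
        · exact Or.inl rfl
        · right
          cases t with
          | top => exact absurd ht (by simp)
          | coe v => exact ⟨v, WithTop.coe_lt_coe.1 ht, rfl⟩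
      exact (((hW w).image _).insert _).mono this
    have h2 : Sr ⊆ ⋃ β ∈ {β : Bx | Sum.inl β ∈ R}, ⋃ γ ∈ {γ : Γ | Sum.inr γ ∈ R}, ⋃ s : Nd,
        (fun t => (β, γ, s, t)) '' {t : WithTop W | t = ⊤ ∨ t < (α β : WithTop W)} := by
      rintro ⟨β, γ, s, t⟩ ⟨h3, h4, h5⟩
      simp only [mem_iUnion]
      exact ⟨β, h3, γ, h4, s, t, h5, rfl⟩
    refine Set.Countable.mono h2 (hRl.biUnion fun β _ => hRr.biUnion fun γ _ =>
      countable_iUnion fun s => (h1 _).image _)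
  -- signatures
  let sx : Cnd Bx Γ W α → {f : Finset (Bx × (Nd × ℕ)) // ∀ q ∈ f, q ∈ Sx} := fun p =>
    ⟨(p.F ×ˢ p.D).filter fun q => q ∈ Sx ∧ p.x q.1 q.2, fun q hq => (Finset.mem_filter.1 hq).2.1⟩
  let sy : Cnd Bx Γ W α → {f : Finset (Γ × (Nd × ℕ)) // ∀ q ∈ f, q ∈ Sy} := fun p =>
    ⟨(p.E ×ˢ p.D).filter fun q => q ∈ Sy ∧ p.y q.1 q.2, fun q hq => (Finset.mem_filter.1 hq).2.1⟩
  let sr : Cnd Bx Γ W α → {f : Finset (Bx × Γ × Nd × WithTop W) // ∀ q ∈ f, q ∈ Sr} := fun p =>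
    ⟨((p.F ×ˢ p.E ×ˢ p.D.image Prod.fst).image fun q => (q.1, q.2.1, q.2.2, p.r q.1 q.2.1 q.2.2)).filter
      fun q => q ∈ Sr, fun q hq => (Finset.mem_filter.1 hq).2⟩
  obtain ⟨T1, D, hT1, hT1c, hD⟩ := pigeon le_rfl T hT (fun p => p.D)
    (Cardinal.mk_le_aleph0 (α := Finset (Nd × ℕ)))
  obtain ⟨T2, vx, hT2, hT2c, hvx⟩ := pigeon le_rfl T1 hT1c sx (countable_sub hSx)
  obtain ⟨T3, vy, hT3, hT3c, hvy⟩ := pigeon le_rfl T2 hT2c sy (countable_sub hSy)
  obtain ⟨T4, vr, hT4, hT4c, hvr⟩ := pigeon le_rfl T3 hT3c sr (countable_sub hSr)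
  obtain ⟨p, hp, p', hp', hne⟩ := two T4 hT4c
  have hpT : p ∈ T := hT1 (hT2 (hT3 (hT4 hp)))
  have hp'T : p' ∈ T := hT1 (hT2 (hT3 (hT4 hp')))
  have hRp : ∀ β ∈ p.F, β ∈ p'.F → Sum.inl β ∈ R := by
    intro β h1 h2
    rw [← hTR p hpT p' hp'T hne]
    exact ⟨by simp [h1], by simp [h2]⟩
  have hRq : ∀ γ ∈ p.E, γ ∈ p'.E → Sum.inr γ ∈ R := by
    intro γ h1 h2
    rw [← hTR p hpT p' hp'T hne]
    exact ⟨by simp [h1], by simp [h2]⟩
  have hDD : p.D = p'.D := by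
    rw [hD p (hT2 (hT3 (hT4 hp))), hD p' (hT2 (hT3 (hT4 hp')))]
  have hxx : sx p = sx p' := by rw [hvx p (hT3 (hT4 hp)), hvx p' (hT3 (hT4 hp'))]
  have hyy : sy p = sy p' := by rw [hvy p (hT4 hp), hvy p' (hT4 hp')]
  have hrr : sr p = sr p' := by rw [hvr p hp, hvr p' hp']
  refine hS p (hTS hpT) p' (hTS hp'T) hne (compat hDD ?_ ?_ ?_)
  · intro β h1 h2 a ha
    have h3 : (β, a) ∈ (sx p).1 ↔ (β, a) ∈ (sx p').1 := by rw [hxx]
    simp only [sx, Finset.mem_filter, Finset.mem_product] at h3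
    have h4 : (β, a) ∈ Sx := hRp β h1 h2
    have h5 : a ∈ p'.D := hDD ▸ ha
    tauto
  · intro γ h1 h2 a ha
    have h3 : (γ, a) ∈ (sy p).1 ↔ (γ, a) ∈ (sy p').1 := by rw [hyy]
    simp only [sy, Finset.mem_filter, Finset.mem_product] at h3
    have h4 : (γ, a) ∈ Sy := hRq γ h1 h2
    have h5 : a ∈ p'.D := hDD ▸ ha
    tauto
  · intro β h1 h2 γ h3 h4 s hs
    have h5 : (β, γ, s, p'.r β γ s) ∈ (sr p').1 := by
      refine Finset.mem_filter.2 ⟨Finset.mem_image.2 ⟨(β, γ, s), ?_, rfl⟩, hRp β h1 h2, hRq γ h3 h4,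
        p'.bd β h2 γ h4 s hs⟩
      obtain ⟨i, hi, -⟩ := hs s List.prefix_rfl
      simp only [Finset.mem_product]
      exact ⟨h2, h4, Finset.mem_image.2 ⟨(s, i), hi, rfl⟩⟩
    rw [← hrr] at h5
    obtain ⟨q, -, hq⟩ := Finset.mem_image.1 (Finset.mem_filter.1 h5).1
    simp only [Prod.mk.injEq] at hq
    obtain ⟨rfl, rfl, rfl, h6⟩ := hq
    exact h6

end Pool.Agent.R582.SB
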