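import Mathlib
import Pool.Agent.R582.SB.Ccc
import Pool.Agent.R582.Rand.Reg

set_option autoImplicit false

/-!
# The generic trees
-/

namespace Pool.Agent.R582.SB

open Set Cardinal
open Pool.Agent.Helper292.SP (fnot fand fall fimp fiff fex for' fground meets IsFun mem_fex mem_fimp
  not_fex down_meets meets_cst meets_of_mem)
open Pool.Agent.H631R2 (CCC meets_of_dense mem_fiff mem_fiff_meets)

/-- The sets `x` and `y` of pairs (node, natural number) have the property that some infinite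
branch has all its nodes `s` in the tree coded by them: there is a set `S` of nodes which contains
the root, contains with each node some immediate successor of it, and for each `s ∈ S` there is `i`
with `(s, i)` in both `x` and `y`. -/
def IllN {P : Type} [Preorder P] (x y : Nd × ℕ → Set P) : Set P :=
  fex fun S : Nd → Set P => fand (meets (S [])) (fand
    (fall fun s : Nd => fimp (meets (S s)) (fex fun k : ℕ => meets (S (s ++ [k]))))
    (fall fun s : Nd => fimp (meets (S s))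
      (fex fun i : ℕ => fand (meets (x (s, i))) (meets (y (s, i))))))

variable {Bx Γ W : Type} [LinearOrder W] {α : Bx → W}

/-- the generic set `x β` -/
def xN (β : Bx) (a : Nd × ℕ) : Set (Cnd Bx Γ W α) := {p | β ∈ p.F ∧ a ∈ p.D ∧ p.x β a}

/-- the generic set `y γ` -/
def yN (γ : Γ) (a : Nd × ℕ) : Set (Cnd Bx Γ W α) := {p | γ ∈ p.E ∧ a ∈ p.D ∧ p.y γ a}

theorem xN_down {β : Bx} {a : Nd × ℕ} {p q : Cnd Bx Γ W α} (h : p ∈ xN β a) (hq : q ≤ p) :
    q ∈ xN β a := ⟨hq.1 h.1, hq.2.2.1 h.2.1, (hq.2.2.2.1 β h.1 a h.2.1).2 h.2.2⟩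

theorem yN_down {γ : Γ} {a : Nd × ℕ} {p q : Cnd Bx Γ W α} (h : p ∈ yN γ a) (hq : q ≤ p) :
    q ∈ yN γ a := ⟨hq.2.1 h.1, hq.2.2.1 h.2.1, (hq.2.2.2.2.1 γ h.1 a h.2.1).2 h.2.2⟩

theorem meets_ext {P : Type} [Preorder P] {N : Set P} (hN : ∀ p ∈ N, ∀ q ≤ p, q ∈ N) {p : P}
    (h : p ∈ meets N) : ∃ q ≤ p, q ∈ N := by
  obtain ⟨q, hq, r, hr, hqr⟩ := h p le_rfl
  exact ⟨q, hq, hN r hr q hqr⟩

theorem exists_ok {q : Cnd Bx Γ W α} {β : Bx} {γ : Γ} (hβ : β ∈ q.F) (hγ : γ ∈ q.E) {s : Nd}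
    (hs : s ∈ Tr q.D (q.x β) (q.y γ)) (hr : q.r β γ s = ⊤) : ∃ k, Ok q β γ (s ++ [k]) ⊤ := by
  refine ⟨(q.D.sup fun a => a.1.sum) + 1, hβ, hγ, ?_, ?_, ?_, Or.inl rfl⟩
  · intro a ha _ _ hpre
    have h1 : (q.D.sup fun a => a.1.sum) + 1 ∈ a.1 := hpre.subset (by simp)
    have h2 : (q.D.sup fun a => a.1.sum) + 1 ≤ a.1.sum := List.single_le_sum (by simp) _ h1
    have h3 : a.1.sum ≤ q.D.sup fun a => a.1.sum := Finset.le_sup (f := fun a : Nd × ℕ => a.1.sum) ha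
    omega
  · intro t ht hne
    rcases List.prefix_concat_iff.1 ht with h | h
    · exact absurd h hne
    · exact Tr.ofInit hs h
  · intro t ht hne
    rcases List.prefix_concat_iff.1 ht with h | h
    · exact absurd h hne
    · left
      by_cases hts : t = s
      · rw [hts, hr]
      · rcases q.mono β hβ γ hγ t (Tr.ofInit hs h) s hs h hts with h1 | h1
        · exact h1
        · rw [hr] at h1
          exact absurd h1 not_top_lt

theorem ill_of_top {p : Cnd Bx Γ W α} {β : Bx} {γ : Γ} (hβ : β ∈ p.F) (hγ : γ ∈ p.E)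
    (h : [] ∈ Tr p.D (p.x β) (p.y γ)) (hr : p.r β γ [] = ⊤) : p ∈ IllN (xN β) (yN γ) := by
  let S : Nd → Set (Cnd Bx Γ W α) := fun s =>
    {q | β ∈ q.F ∧ γ ∈ q.E ∧ s ∈ Tr q.D (q.x β) (q.y γ) ∧ q.r β γ s = ⊤}
  have hS : ∀ s, ∀ q ∈ S s, ∀ q' ≤ q, q' ∈ S s := by
    rintro s q ⟨h1, h2, h3, h4⟩ q' hq'
    exact ⟨hq'.1 h1, hq'.2.1 h2, le_tr hq' h1 h2 h3, by rw [hq'.2.2.2.2.2 β h1 γ h2 s h3, h4]⟩
  refine mem_fex.2 fun q hq => ⟨q, le_rfl, S, ?_, fun s => ?_, fun s => ?_⟩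
  · exact down_meets (meets_of_mem (hS []) ⟨hβ, hγ, h, hr⟩) hq
  · refine mem_fimp.2 fun q' _ hq' => ⟨q', le_rfl, mem_fex.2 fun r hr => ?_⟩
    obtain ⟨r', hr', h1⟩ := meets_ext (hS s) (down_meets hq' hr)
    obtain ⟨k, hk⟩ := exists_ok h1.1 h1.2.1 h1.2.2.1 h1.2.2.2
    obtain ⟨i, hi⟩ := exists_fresh r'.D (s ++ [k])
    refine ⟨r'.addN hk i hi, (Cnd.addN_le hk i hi).trans hr', k, meets_of_mem (hS _) ?_⟩
    have hle := Cnd.addN_le hk i hi
    exact ⟨hle.1 h1.1, hle.2.1 h1.2.1, Cnd.addN_mem hk i hi, Cnd.addN_val hk i hi⟩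
  · refine mem_fimp.2 fun q' _ hq' => ?_
    obtain ⟨r', hr', h1⟩ := meets_ext (hS s) hq'
    obtain ⟨i, hi, hx, hy⟩ := h1.2.2.1 s List.prefix_rfl
    refine ⟨r', hr', mem_fex.2 fun u hu => ⟨u, le_rfl, i, ?_, ?_⟩⟩
    · exact meets_of_mem (fun _ h _ h' => xN_down h h') (xN_down ⟨h1.1, hi, hx⟩ hu)
    · exact meets_of_mem (fun _ h _ h' => yN_down h h') (yN_down ⟨h1.2.1, hi, hy⟩ hu)

theorem not_ill [WellFoundedLT W] {p : Cnd Bx Γ W α} {β : Bx} {γ : Γ} (hβ : β ∈ p.F) (hγ : γ ∈ p.E)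
    (h : [] ∈ Tr p.D (p.x β) (p.y γ)) (hr : p.r β γ [] ≠ ⊤) : p ∈ fnot (IllN (xN β) (yN γ)) := by
  intro q hq hill
  obtain ⟨r, hrq, S, h1, h2, h3⟩ := mem_fex.1 hill q le_rfl
  have key : ∀ w : W, ∀ u ≤ r, ∀ s, s ∈ Tr u.D (u.x β) (u.y γ) → u.r β γ s = w →
      u ∈ meets (S s) → False := by
    intro w
    induction w using (wellFounded_lt : WellFounded ((· < ·) : W → W → Prop)).induction with
    | _ w ih =>
      intro u hu s hs hrs hus
      have hβu : β ∈ u.F := hu.1 (hrq.1 (hq.1 hβ))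
      have hγu : γ ∈ u.E := hu.2.1 (hrq.2.1 (hq.2.1 hγ))
      obtain ⟨u1, hu1, hu1'⟩ := mem_fimp.1 (h2 s) u hu hus
      obtain ⟨u2, hu2, k, hk⟩ := mem_fex.1 hu1' u1 le_rfl
      obtain ⟨u3, hu3, hu3'⟩ := mem_fimp.1 (h3 (s ++ [k])) u2 (hu2.trans (hu1.trans hu)) hk
      obtain ⟨u4, hu4, i, hx, hy⟩ := mem_fex.1 hu3' u3 le_rfl
      obtain ⟨u5, hu5, hx5⟩ := meets_ext (fun _ h _ h' => xN_down h h') hx
      obtain ⟨u6, hu6, hy6⟩ := meets_ext (fun _ h _ h' => yN_down h h') (down_meets hy hu5)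
      have hx6 := xN_down hx5 hu6
      have hle : u6 ≤ u := hu6.trans (hu5.trans (hu4.trans (hu3.trans (hu2.trans hu1))))
      have hs6 : s ∈ Tr u6.D (u6.x β) (u6.y γ) := le_tr hle hβu hγu hs
      have hk6 : s ++ [k] ∈ Tr u6.D (u6.x β) (u6.y γ) := by
        intro t ht
        rcases List.prefix_concat_iff.1 ht with h | h
        · rw [h]
          exact ⟨i, hx6.2.1, hx6.2.2, hy6.2.2⟩
        · exact hs6 t h
      have hrs6 : u6.r β γ s = w := by rw [hle.2.2.2.2.2 β hβu γ hγu s hs, hrs]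
      rcases u6.mono β (hle.1 hβu) γ (hle.2.1 hγu) s hs6 (s ++ [k]) hk6 (List.prefix_append _ _)
        (by simp) with h5 | h5
      · rw [hrs6] at h5
        exact absurd h5 (by simp)
      · rw [hrs6] at h5
        cases h6 : u6.r β γ (s ++ [k]) with
        | top =>
          rw [h6] at h5
          exact absurd h5 (by simp)
        | coe v =>
          rw [h6, WithTop.coe_lt_coe] at h5
          exact ih v h5 u6 (hle.trans hu) (s ++ [k]) hk6 h6
            (down_meets hk (hu6.trans (hu5.trans (hu4.trans hu3))))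
  have hle : r ≤ p := hrq.trans hq
  cases h4 : p.r β γ [] with
  | top => exact hr h4
  | coe w =>
    exact key w r le_rfl [] (le_tr hle hβ hγ h) (by rw [hle.2.2.2.2.2 β hβ γ hγ [] h, h4]) h1

end Pool.Agent.R582.SB
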