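import Mathlib
import Pool.Agent.R582.SB.Names

set_option autoImplicit false

/-!
# Changing the rank function at one pair
-/

namespace Pool.Agent.R582.SB

open Set Cardinal
open Pool.Agent.Helper292.SP (fnot fand fall fimp fiff fex for' fground meets IsFun mem_fex mem_fimp
  not_fex down_meets meets_cst meets_of_mem)
open Pool.Agent.H631R2 (CCC meets_of_dense mem_fiff mem_fiff_meets)

variable {Bx Γ W : Type} [LinearOrder W] {α : Bx → W}

/-- `p` and `p'` differ only in the rank functions at the pair `β₀`, `γ₀`, and there they agree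
where one of them is below `c`. -/
structure Rt (β₀ : Bx) (γ₀ : Γ) (c : WithTop W) (p p' : Cnd Bx Γ W α) : Prop where
  F : p.F = p'.F
  E : p.E = p'.E
  D : p.D = p'.D
  x : p.x = p'.x
  y : p.y = p'.y
  r : ∀ β γ s, ¬ (β = β₀ ∧ γ = γ₀) → p.r β γ s = p'.r β γ s
  r₀ : ∀ s ∈ Tr p.D (p.x β₀) (p.y γ₀), p.r β₀ γ₀ s = p'.r β₀ γ₀ s ∨
    (c ≤ p.r β₀ γ₀ s ∧ c ≤ p'.r β₀ γ₀ s)

theorem Rt.symm {β₀ : Bx} {γ₀ : Γ} {c : WithTop W} {p p' : Cnd Bx Γ W α} (h : Rt β₀ γ₀ c p p') :
    Rt β₀ γ₀ c p' p where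
  F := h.F.symm
  E := h.E.symm
  D := h.D.symm
  x := h.x.symm
  y := h.y.symm
  r β γ s hh := (h.r β γ s hh).symm
  r₀ s hs := by
    rw [← h.D, ← h.x, ← h.y] at hs
    rcases h.r₀ s hs with h1 | h1
    · exact Or.inl h1.symm
    · exact Or.inr ⟨h1.2, h1.1⟩

/-- the main lemma on changing rank functions -/
theorem retag {a : W → ℕ → W} (ha : ∀ w i j, i < j → a w i < a w j)
    (ha' : ∀ w w' i j, w < w' → a w i < a w' j) {β₀ : Bx} {γ₀ : Γ} {κ κ' : W} (hκ : κ' < κ)
    (hα : a κ 0 ≤ α β₀) {p p' q : Cnd Bx Γ W α} (h : Rt β₀ γ₀ (a κ 0 : W) p p') (hq : q ≤ p) :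
    ∃ q' ≤ p', Rt β₀ γ₀ (a κ' 0 : W) q q' := by
  classical
  -- old nodes
  let Old : Nd → Prop := fun s => β₀ ∈ p.F ∧ γ₀ ∈ p.E ∧ s ∈ Tr p.D (p.x β₀) (p.y γ₀)
  -- nodes above an old node with small value
  let Bel : Nd → Prop := fun s => ∃ u, u <+: s ∧ Old u ∧ q.r β₀ γ₀ u < (a κ 0 : W)
  set M : ℕ := q.D.sup fun a => a.1.length with hM
  let ρ : Nd → WithTop W := fun s =>
    if Old s then p'.r β₀ γ₀ s else if q.r β₀ γ₀ s < (a κ' 0 : W) ∨ Bel s then q.r β₀ γ₀ s
      else ((a κ' (M + 1 - s.length) : W) : WithTop W)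
  have hOq : ∀ s, Old s → s ∈ Tr q.D (q.x β₀) (q.y γ₀) ∧ β₀ ∈ q.F ∧ γ₀ ∈ q.E ∧
      q.r β₀ γ₀ s = p.r β₀ γ₀ s := fun s hs =>
    ⟨le_tr hq hs.1 hs.2.1 hs.2.2, hq.1 hs.1, hq.2.1 hs.2.1, hq.2.2.2.2.2 β₀ hs.1 γ₀ hs.2.1 s hs.2.2⟩
  have hOpre : ∀ s t, s <+: t → Old t → Old s := fun s t hst ht =>
    ⟨ht.1, ht.2.1, Tr.ofInit ht.2.2 hst⟩
  have hOp' : ∀ s, Old s → s ∈ Tr p'.D (p'.x β₀) (p'.y γ₀) ∧ β₀ ∈ p'.F ∧ γ₀ ∈ p'.E := by
    rintro s ⟨h1, h2, h3⟩
    rw [← h.D, ← h.x, ← h.y, ← h.F, ← h.E]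
    exact ⟨h3, h1, h2⟩
  have hlt : ∀ j, ((a κ' j : W) : WithTop W) < (a κ 0 : W) := fun j =>
    WithTop.coe_lt_coe.2 (ha' _ _ _ _ hκ)
  have hge : ∀ j, ((a κ' 0 : W) : WithTop W) ≤ (a κ' j : W) := by
    intro j
    rw [WithTop.coe_le_coe]
    rcases Nat.eq_zero_or_pos j with rfl | hj
    · exact le_rfl
    · exact (ha _ _ _ hj).le
  -- small old values are the same
  have hsame : ∀ s, Old s → q.r β₀ γ₀ s < (a κ 0 : W) → p'.r β₀ γ₀ s = q.r β₀ γ₀ s := by
    intro s hs hsm
    rw [(hOq s hs).2.2.2] at hsm ⊢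
    rcases h.r₀ s hs.2.2 with h1 | h1
    · exact h1.symm
    · exact absurd h1.1 (not_le.2 hsm)
  have hbig : ∀ s, Old s → ¬ q.r β₀ γ₀ s < (a κ 0 : W) → ((a κ 0 : W) : WithTop W) ≤ p'.r β₀ γ₀ s := by
    intro s hs hsm
    rw [(hOq s hs).2.2.2] at hsm
    rcases h.r₀ s hs.2.2 with h1 | h1
    · rw [← h1]
      exact not_lt.1 hsm
    · exact h1.2
  -- monotonicity of `q`
  have hqm : ∀ s t, s ∈ Tr q.D (q.x β₀) (q.y γ₀) → t ∈ Tr q.D (q.x β₀) (q.y γ₀) → β₀ ∈ q.F →
      γ₀ ∈ q.E → s <+: t → s ≠ t → q.r β₀ γ₀ s = ⊤ ∨ q.r β₀ γ₀ t < q.r β₀ γ₀ s :=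
    fun s t hs ht hβ hγ hst hne => q.mono β₀ hβ γ₀ hγ s hs t ht hst hne
  have hmono : β₀ ∈ q.F → γ₀ ∈ q.E → ∀ s ∈ Tr q.D (q.x β₀) (q.y γ₀),
      ∀ t ∈ Tr q.D (q.x β₀) (q.y γ₀), s <+: t → s ≠ t → ρ s = ⊤ ∨ ρ t < ρ s := by
    intro hβ hγ s hs t ht hst hne
    by_cases hOs : Old s
    · have hρs : ρ s = p'.r β₀ γ₀ s := if_pos hOs
      by_cases hOt : Old t
      · have hρt : ρ t = p'.r β₀ γ₀ t := if_pos hOt
        rw [hρs, hρt]
        have h1 := hOp' s hOs
        exact p'.mono β₀ h1.2.1 γ₀ h1.2.2 s h1.1 t (hOp' t hOt).1 hst hne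
      · by_cases hsm : q.r β₀ γ₀ s < (a κ 0 : W)
        · have hBt : Bel t := ⟨s, hst, hOs, hsm⟩
          have hρt : ρ t = q.r β₀ γ₀ t := by
            simp only [ρ, if_neg hOt]
            rw [if_pos (Or.inr hBt)]
          rw [hρs, hρt, hsame s hOs hsm]
          exact hqm s t hs ht hβ hγ hst hne
        · right
          rw [hρs]
          refine lt_of_lt_of_le ?_ (hbig s hOs hsm)
          by_cases hc : q.r β₀ γ₀ t < (a κ' 0 : W) ∨ Bel t
          · have hρt : ρ t = q.r β₀ γ₀ t := by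
              simp only [ρ, if_neg hOt]
              rw [if_pos hc]
            rw [hρt]
            rcases hc with hc | ⟨u, hu, hOu, hus⟩
            · exact hc.trans (hlt 0)
            · have hne' : u ≠ t := fun h' => hOt (h' ▸ hOu)
              rcases hqm u t (hOq u hOu).1 ht hβ hγ hu hne' with h1 | h1
              · rw [h1] at hus
                exact absurd hus not_top_lt
              · exact h1.trans hus
          · have hρt : ρ t = ((a κ' (M + 1 - t.length) : W) : WithTop W) := by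
              simp only [ρ, if_neg hOt]
              rw [if_neg hc]
            rw [hρt]
            exact hlt _
    · have hOt : ¬ Old t := fun h' => hOs (hOpre s t hst h')
      by_cases hBs : Bel s
      · have hBt : Bel t := by
          obtain ⟨u, hu, h1⟩ := hBs
          exact ⟨u, hu.trans hst, h1⟩
        have hρs : ρ s = q.r β₀ γ₀ s := by
          simp only [ρ, if_neg hOs]
          rw [if_pos (Or.inr hBs)]
        have hρt : ρ t = q.r β₀ γ₀ t := by
          simp only [ρ, if_neg hOt]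
          rw [if_pos (Or.inr hBt)]
        rw [hρs, hρt]
        exact hqm s t hs ht hβ hγ hst hne
      · have hBt : ¬ Bel t := by
          rintro ⟨u, hu, hOu, hus⟩
          rcases List.prefix_or_prefix_of_prefix hu hst with h1 | h1
          · exact hBs ⟨u, h1, hOu, hus⟩
          · exact hOs (hOpre s u h1 hOu)
        by_cases hcs : q.r β₀ γ₀ s < (a κ' 0 : W)
        · have hρs : ρ s = q.r β₀ γ₀ s := by
            simp only [ρ, if_neg hOs]
            rw [if_pos (Or.inl hcs)]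
          rcases hqm s t hs ht hβ hγ hst hne with h1 | h1
          · left
            rw [hρs, h1]
          · right
            have hρt : ρ t = q.r β₀ γ₀ t := by
              simp only [ρ, if_neg hOt]
              rw [if_pos (Or.inl (h1.trans hcs))]
            rw [hρs, hρt]
            exact h1
        · have hρs : ρ s = ((a κ' (M + 1 - s.length) : W) : WithTop W) := by
            simp only [ρ, if_neg hOs]
            rw [if_neg (by rintro (h1 | h1); exacts [hcs h1, hBs h1])]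
          right
          rw [hρs]
          by_cases hct : q.r β₀ γ₀ t < (a κ' 0 : W)
          · have hρt : ρ t = q.r β₀ γ₀ t := by
              simp only [ρ, if_neg hOt]
              rw [if_pos (Or.inl hct)]
            rw [hρt]
            exact hct.trans_le (hge _)
          · have hρt : ρ t = ((a κ' (M + 1 - t.length) : W) : WithTop W) := by
              simp only [ρ, if_neg hOt]
              rw [if_neg (by rintro (h1 | h1); exacts [hct h1, hBt h1])]
            rw [hρt, WithTop.coe_lt_coe]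
            apply ha
            have h1 : t.length ≤ M := Tr.length_le ht
            have h2 : s.length < t.length := by
              rcases hst.length_le.lt_or_eq with h3 | h3
              · exact h3
              · exact absurd (hst.eq_of_length h3) hne
            omega
  let q' : Cnd Bx Γ W α :=
    { F := q.F
      E := q.E
      D := q.D
      x := q.x
      y := q.y
      r := fun β γ s => if β = β₀ ∧ γ = γ₀ then ρ s else q.r β γ s
      mono := by
        intro β hβ γ hγ s hs t ht hst hne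
        by_cases h0 : β = β₀ ∧ γ = γ₀
        · rw [if_pos h0, if_pos h0]
          obtain ⟨rfl, rfl⟩ := h0
          exact hmono hβ hγ s hs t ht hst hne
        · rw [if_neg h0, if_neg h0]
          exact q.mono β hβ γ hγ s hs t ht hst hne
      bd := by
        intro β hβ γ hγ s hs
        by_cases h0 : β = β₀ ∧ γ = γ₀
        · rw [if_pos h0]
          obtain ⟨rfl, rfl⟩ := h0
          by_cases hOs : Old s
          · have hρs : ρ s = p'.r β γ s := if_pos hOs
            rw [hρs]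
            have h1 := hOp' s hOs
            exact p'.bd β h1.2.1 γ h1.2.2 s h1.1
          · by_cases hc : q.r β γ s < (a κ' 0 : W) ∨ Bel s
            · have hρs : ρ s = q.r β γ s := by
                simp only [ρ, if_neg hOs]
                rw [if_pos hc]
              rw [hρs]
              exact q.bd β hβ γ hγ s hs
            · have hρs : ρ s = ((a κ' (M + 1 - s.length) : W) : WithTop W) := by
                simp only [ρ, if_neg hOs]
                rw [if_neg hc]
              rw [hρs]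
              exact Or.inr ((hlt _).trans_le (WithTop.coe_le_coe.2 hα))
        · rw [if_neg h0]
          exact q.bd β hβ γ hγ s hs }
  refine ⟨q', ⟨?_, ?_, ?_, ?_, ?_, ?_⟩, ⟨rfl, rfl, rfl, rfl, rfl, ?_, ?_⟩⟩
  · rw [← h.F]; exact hq.1
  · rw [← h.E]; exact hq.2.1
  · rw [← h.D]; exact hq.2.2.1
  · intro β hβ b hb
    rw [← h.F] at hβ
    rw [← h.D] at hb
    rw [← h.x]
    exact hq.2.2.2.1 β hβ b hb
  · intro γ hγ b hb
    rw [← h.E] at hγ
    rw [← h.D] at hb
    rw [← h.y]
    exact hq.2.2.2.2.1 γ hγ b hb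
  · intro β hβ γ hγ s hs
    rw [← h.F] at hβ
    rw [← h.E] at hγ
    rw [← h.D, ← h.x, ← h.y] at hs
    by_cases h0 : β = β₀ ∧ γ = γ₀
    · simp only [q', if_pos h0]
      obtain ⟨rfl, rfl⟩ := h0
      exact if_pos ⟨hβ, hγ, hs⟩
    · simp only [q', if_neg h0]
      rw [hq.2.2.2.2.2 β hβ γ hγ s hs, h.r β γ s h0]
  · intro β γ s h0
    simp only [q', if_neg h0]
  · intro s hs
    simp only [q', and_self, if_true]
    by_cases hOs : Old s
    · have hρs : ρ s = p'.r β₀ γ₀ s := if_pos hOs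
      rw [hρs]
      by_cases hsm : q.r β₀ γ₀ s < (a κ 0 : W)
      · left
        rw [hsame s hOs hsm]
      · right
        exact ⟨(hlt 0).le.trans (not_lt.1 hsm), (hlt 0).le.trans (hbig s hOs hsm)⟩
    · by_cases hc : q.r β₀ γ₀ s < (a κ' 0 : W) ∨ Bel s
      · left
        simp only [ρ, if_neg hOs]
        rw [if_pos hc]
      · right
        have hρs : ρ s = ((a κ' (M + 1 - s.length) : W) : WithTop W) := by
          simp only [ρ, if_neg hOs]
          rw [if_neg hc]
        rw [hρs]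
        exact ⟨not_lt.1 fun h1 => hc (Or.inl h1), hge _⟩

end Pool.Agent.R582.SB
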