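import Mathlib
import Pool.Agent.R582.SB.Retag

set_option autoImplicit false

/-!
# Universal Borel sets in the forcing language
-/

namespace Pool.Agent.R582.SB

open Set Cardinal
open Pool.Agent.Helper292.SP (fnot fand fall fimp fiff fex for' fground meets IsFun mem_fex mem_fimp
  not_fex down_meets meets_cst meets_of_mem)
open Pool.Agent.H631R2 (CCC meets_of_dense mem_fiff mem_fiff_meets)

section

variable {W : Type} [LinearOrder W] [WellFoundedLT W]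

/-- The universal Borel set of level `ξ` (an element of the well-ordered set `W`, where `e ξ`
enumerates the predecessors of `ξ`): the set of all `z ⊆ ℕ` with `U e ξ z d`, where `d` is a code.
The code gives, for each `n`, a code of lower level (the level is `e ξ m` if `d [1, n, m]` holds),
and the coded set is the union of the complements of the sets so coded, and of the sets
`{z : z k}` for all `k` with `d [2, k]`. -/
def U (e : W → ℕ → W) : W → (ℕ → Prop) → (List ℕ → Prop) → Prop :=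
  (wellFounded_lt : WellFounded ((· < ·) : W → W → Prop)).fix fun ξ rec z d =>
    (∃ n : ℕ, ∃ m : {m : ℕ // e ξ m < ξ}, d [1, n, m.1] ∧
      ¬ rec (e ξ m.1) m.2 z fun l => d (0 :: n :: l)) ∨ ∃ k : ℕ, d [2, k] ∧ z k

theorem U_iff {e : W → ℕ → W} {ξ : W} {z : ℕ → Prop} {d : List ℕ → Prop} :
    U e ξ z d ↔ (∃ n : ℕ, ∃ m : {m : ℕ // e ξ m < ξ}, d [1, n, m.1] ∧
      ¬ U e (e ξ m.1) z fun l => d (0 :: n :: l)) ∨ ∃ k : ℕ, d [2, k] ∧ z k := by
  conv_lhs => rw [U, WellFounded.fix_eq]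
  rfl

/-- The definition of `U` in the forcing language. -/
def UN {P : Type} [Preorder P] (e : W → ℕ → W) : W → (ℕ → Set P) → (List ℕ → Set P) → Set P :=
  (wellFounded_lt : WellFounded ((· < ·) : W → W → Prop)).fix fun ξ rec z d =>
    for' (fex fun n : ℕ => fex fun m : {m : ℕ // e ξ m < ξ} =>
        fand (meets (d [1, n, m.1])) (fnot (rec (e ξ m.1) m.2 z fun l => d (0 :: n :: l))))
      (fex fun k : ℕ => fand (meets (d [2, k])) (meets (z k)))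

theorem UN_eq {P : Type} [Preorder P] {e : W → ℕ → W} {ξ : W} {z : ℕ → Set P} {d : List ℕ → Set P} :
    UN e ξ z d = for' (fex fun n : ℕ => fex fun m : {m : ℕ // e ξ m < ξ} =>
        fand (meets (d [1, n, m.1])) (fnot (UN e (e ξ m.1) z fun l => d (0 :: n :: l))))
      (fex fun k : ℕ => fand (meets (d [2, k])) (meets (z k))) := by
  conv_lhs => rw [UN, WellFounded.fix_eq]
  rfl

theorem mem_UN {P : Type} [Preorder P] {e : W → ℕ → W} {ξ : W} {z : ℕ → Set P} {d : List ℕ → Set P}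
    {p : P} : p ∈ UN e ξ z d ↔ ∀ q ≤ p, ∃ r ≤ q,
      (∃ n : ℕ, ∃ m : {m : ℕ // e ξ m < ξ}, r ∈ meets (d [1, n, m.1]) ∧
        r ∈ fnot (UN e (e ξ m.1) z fun l => d (0 :: n :: l))) ∨
      ∃ k : ℕ, r ∈ meets (d [2, k]) ∧ r ∈ meets (z k) := by
  rw [UN_eq]
  constructor
  · intro h q hq
    by_contra hcon
    push Not at hcon
    apply h q hq
    constructor
    · intro r hr hr'
      obtain ⟨s, hs, n, hn⟩ := mem_fex.1 hr' r le_rfl
      obtain ⟨t, ht, m, hm⟩ := mem_fex.1 hn s le_rfl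
      exact (hcon t (ht.trans (hs.trans hr))).1 n m hm.1 hm.2
    · intro r hr hr'
      obtain ⟨s, hs, k, hk⟩ := mem_fex.1 hr' r le_rfl
      exact (hcon s (hs.trans hr)).2 k hk.1 hk.2
  · rintro h q hq ⟨h1, h2⟩
    obtain ⟨r, hr, ⟨n, m, h3, h4⟩ | ⟨k, h3, h4⟩⟩ := h q hq
    · refine h1 r hr (mem_fex.2 fun s hs => ⟨s, le_rfl, n, mem_fex.2 fun t ht => ⟨t, le_rfl, m, ?_, ?_⟩⟩)
      · exact down_meets h3 (ht.trans hs)
      · exact fun u hu => h4 u (hu.trans (ht.trans hs))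
    · exact h2 r hr (mem_fex.2 fun s hs => ⟨s, le_rfl, k, down_meets h3 hs, down_meets h4 hs⟩)

theorem UN_down {P : Type} [Preorder P] {e : W → ℕ → W} {ξ : W} {z : ℕ → Set P}
    {d : List ℕ → Set P} {p q : P} (h : p ∈ UN e ξ z d) (hq : q ≤ p) : q ∈ UN e ξ z d :=
  mem_UN.2 fun r hr => mem_UN.1 h r (hr.trans hq)

theorem UN_dense {P : Type} [Preorder P] {e : W → ℕ → W} {ξ : W} {z : ℕ → Set P}
    {d : List ℕ → Set P} {p : P} (h : ∀ q ≤ p, ∃ r ≤ q, r ∈ UN e ξ z d) : p ∈ UN e ξ z d := by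
  refine mem_UN.2 fun q hq => ?_
  obtain ⟨r, hr, h1⟩ := h q hq
  obtain ⟨s, hs, h2⟩ := mem_UN.1 h1 r le_rfl
  exact ⟨s, hs.trans hr, h2⟩

end

variable {Bx Γ W : Type} [LinearOrder W] {α : Bx → W}

/-- The name `N` does not depend on the rank function at the pair `β₀`, `γ₀`: every condition is
compatible with one that decides whether the generic filter meets `N` and does not mention both
`β₀` and `γ₀`. -/
def Avoids (β₀ : Bx) (γ₀ : Γ) (N : Set (Cnd Bx Γ W α)) : Prop :=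
  ∀ p, ∃ b w, w ≤ p ∧ w ≤ b ∧ (b ∈ meets N ∨ b ∈ fnot (meets N)) ∧ ¬ (β₀ ∈ b.F ∧ γ₀ ∈ b.E)

theorem exists_supp (hccc : CCC (Cnd Bx Γ W α)) (N : Set (Cnd Bx Γ W α)) :
    ∃ (A : Set Bx) (B : Set Γ), A.Countable ∧ B.Countable ∧
      ∀ β₀ γ₀, (β₀ ∉ A ∨ γ₀ ∉ B) → Avoids β₀ γ₀ N := by
  obtain ⟨S, hS⟩ := zorn_subset {S : Set (Cnd Bx Γ W α) |
      (∀ b ∈ S, b ∈ meets N ∨ b ∈ fnot (meets N)) ∧
      ∀ p ∈ S, ∀ q ∈ S, p ≠ q → ¬ ∃ r, r ≤ p ∧ r ≤ q} (by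
    intro c hc hchain
    refine ⟨⋃₀ c, ⟨?_, ?_⟩, fun S hS => subset_sUnion_of_mem hS⟩
    · rintro b ⟨S, hS, hb⟩
      exact (hc hS).1 b hb
    · rintro p ⟨S, hS, hp⟩ q ⟨S', hS', hq⟩ hne
      rcases hchain.total hS hS' with h | h
      · exact (hc hS').2 p (h hp) q hq hne
      · exact (hc hS).2 p hp q (h hq) hne)
  have hSc : S.Countable := Cardinal.le_aleph0_iff_set_countable.1 (hccc S hS.prop.2)
  refine ⟨⋃ b ∈ S, (b.F : Set Bx), ⋃ b ∈ S, (b.E : Set Γ), hSc.biUnion fun b _ => Finset.countable_toSet _,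
    hSc.biUnion fun b _ => Finset.countable_toSet _, ?_⟩
  intro β₀ γ₀ h0 p
  -- a condition below `p` which decides
  have h1 : ∃ q ≤ p, q ∈ meets N ∨ q ∈ fnot (meets N) := by
    by_cases h : p ∈ fnot (meets N)
    · exact ⟨p, le_rfl, Or.inr h⟩
    · simp only [fnot, Set.mem_ofPred_eq, not_forall, not_not] at h
      obtain ⟨q, hq, h⟩ := h
      exact ⟨q, hq, Or.inl h⟩
  obtain ⟨q, hq, hq'⟩ := h1
  have h2 : ∃ b ∈ S, ∃ w, w ≤ q ∧ w ≤ b := by
    by_contra hcon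
    push Not at hcon
    have hqS : q ∉ S := fun h => hcon q h q le_rfl le_rfl
    have h3 : (∀ b ∈ insert q S, b ∈ meets N ∨ b ∈ fnot (meets N)) ∧
        ∀ p ∈ insert q S, ∀ r ∈ insert q S, p ≠ r → ¬ ∃ w, w ≤ p ∧ w ≤ r := by
      constructor
      · rintro b (rfl | hb)
        · exact hq'
        · exact hS.prop.1 b hb
      · rintro p (rfl | hp) r (rfl | hr) hne ⟨w, hw, hw'⟩
        · exact hne rfl
        · exact hcon r hr w hw hw'
        · exact hcon p hp w hw' hw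
        · exact hS.prop.2 p hp r hr hne ⟨w, hw, hw'⟩
    exact hqS (hS.le_of_ge h3 (subset_insert q S) (mem_insert q S))
  obtain ⟨b, hb, w, hw, hw'⟩ := h2
  refine ⟨b, w, hw.trans hq, hw', hS.prop.1 b hb, ?_⟩
  rintro ⟨h3, h4⟩
  rcases h0 with h0 | h0
  · exact h0 (mem_biUnion hb h3)
  · exact h0 (mem_biUnion hb h4)

theorem le_of_rt {β₀ : Bx} {γ₀ : Γ} {c : WithTop W} {w' w b : Cnd Bx Γ W α}
    (h : Rt β₀ γ₀ c w' w) (hb : w' ≤ b) (h0 : ¬ (β₀ ∈ b.F ∧ γ₀ ∈ b.E)) : w ≤ b := by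
  refine ⟨?_, ?_, ?_, ?_, ?_, ?_⟩
  · rw [← h.F]; exact hb.1
  · rw [← h.E]; exact hb.2.1
  · rw [← h.D]; exact hb.2.2.1
  · rw [← h.x]; exact hb.2.2.2.1
  · rw [← h.y]; exact hb.2.2.2.2.1
  · intro β hβ γ hγ s hs
    rw [← h.r β γ s (by rintro ⟨rfl, rfl⟩; exact h0 ⟨hβ, hγ⟩)]
    exact hb.2.2.2.2.2 β hβ γ hγ s hs

section

variable {a : W → ℕ → W} (ha : ∀ w i j, i < j → a w i < a w j)
  (ha' : ∀ w w' i j, w < w' → a w i < a w' j) {β₀ : Bx} {γ₀ : Γ}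

include ha ha'

theorem avoid_transfer {κ κ' : W} (hκ : κ' < κ) (hα : a κ 0 ≤ α β₀) {N : Set (Cnd Bx Γ W α)}
    (hN : Avoids β₀ γ₀ N) {q q' : Cnd Bx Γ W α} (h : Rt β₀ γ₀ (a κ 0 : W) q q')
    (hq : q ∈ meets N) : q' ∈ meets N := by
  by_contra hcon
  have h1 : ∃ u ≤ q', u ∈ fnot (meets N) := by
    by_contra hcon'
    push Not at hcon'
    apply hcon
    apply meets_of_dense
    intro u hu
    have := hcon' u hu
    simp only [fnot, Set.mem_ofPred_eq, not_forall, not_not] at this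
    obtain ⟨r, hr, h⟩ := this
    exact ⟨r, hr, h⟩
  obtain ⟨u, hu, hu'⟩ := h1
  obtain ⟨b, w', hw', hw'b, hb, hb0⟩ := hN u
  have hb' : b ∈ fnot (meets N) := by
    rcases hb with hb | hb
    · exact absurd (down_meets hb hw'b) (hu' w' hw')
    · exact hb
  obtain ⟨w, hw, hw2⟩ := retag ha ha' hκ hα h.symm (hw'.trans hu)
  exact hb' w (le_of_rt hw2 hw'b hb0) (down_meets hq hw)

theorem un_transfer [WellFoundedLT W] {e : W → ℕ → W} {z : ℕ → Set (Cnd Bx Γ W α)}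
    (hz : ∀ k, Avoids β₀ γ₀ (z k)) (ξ : W) : ∀ (d : List ℕ → Set (Cnd Bx Γ W α)),
    (∀ l, Avoids β₀ γ₀ (d l)) → ∀ κ, a ξ 4 ≤ κ → a κ 0 ≤ α β₀ → ∀ p p' : Cnd Bx Γ W α,
    Rt β₀ γ₀ (a κ 0 : W) p p' → p ∈ UN e ξ z d → p' ∈ UN e ξ z d := by
  induction ξ using (wellFounded_lt : WellFounded ((· < ·) : W → W → Prop)).induction with
  | _ ξ ih =>
    intro d hd κ hκ hα p p' h hp
    have hmono : ∀ i, a ξ i < κ → a (a ξ i) 0 ≤ α β₀ := fun i hi => (ha' _ _ 0 0 hi).le.trans hα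
    have h3 : a ξ 3 < κ := (ha _ _ _ (by norm_num)).trans_le hκ
    have h2 : a ξ 2 < κ := (ha _ _ _ (by norm_num)).trans_le hκ
    have h1 : a ξ 1 < κ := (ha _ _ _ (by norm_num)).trans_le hκ
    refine mem_UN.2 fun u' hu' => ?_
    obtain ⟨u, hu, hru⟩ := retag ha ha' h3 hα h.symm hu'
    obtain ⟨v, hv, hvc⟩ := mem_UN.1 hp u hu
    obtain ⟨v', hv', hrv⟩ := retag ha ha' (ha ξ 2 3 (by norm_num)) (hmono 3 h3) hru.symm hv
    refine ⟨v', hv', ?_⟩
    rcases hvc with ⟨n, m, g1, g2⟩ | ⟨k, g1, g2⟩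
    · left
      refine ⟨n, m, avoid_transfer ha ha' (ha ξ 1 2 (by norm_num)) (hmono 2 h2) (hd _) hrv g1, ?_⟩
      intro w' hw' hw'U
      obtain ⟨w, hw, hrw⟩ := retag ha ha' (ha ξ 1 2 (by norm_num)) (hmono 2 h2) hrv.symm hw'
      refine g2 w hw (ih (e ξ m.1) m.2 _ (fun l => hd _) (a ξ 1) (ha' _ _ _ _ m.2).le (hmono 1 h1)
        w' w hrw hw'U)
    · right
      exact ⟨k, avoid_transfer ha ha' (ha ξ 1 2 (by norm_num)) (hmono 2 h2) (hd _) hrv g1,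
        avoid_transfer ha ha' (ha ξ 1 2 (by norm_num)) (hmono 2 h2) (hz _) hrv g2⟩

end

end Pool.Agent.R582.SB
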