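import Mathlib
import Pool.Agent.R582.SB.Borel
import Pool.Agent.R582.Coh.Forced
import Pool.Agent.R582.NR.Top

set_option autoImplicit false

/-!
# The hypothesis is forced
-/

namespace Pool.Agent.R582.SB

open Set Cardinal
open Pool.Agent.Helper292.SP (fnot fand fall fimp fiff fex for' fground meets IsFun mem_fex mem_fimp
  not_fex down_meets meets_cst meets_of_mem)
open Pool.Agent.H631R2 (CCC meets_of_dense mem_fiff mem_fiff_meets)
open Pool.Agent.R582.Rand
open Pool.Agent.R582.Coh (values_countable mem_fex_self)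

/-- `Hyp` in the forcing language. -/
def HypN (P : Type) [Preorder P] (W Γ : Type) [LinearOrder W] [WellFoundedLT W] (e : W → ℕ → W) :
    Set P :=
  fand (fall fun F : ℕ → W → Set P => fimp (IsFun F)
      (fex fun ξ : W => fall fun n : ℕ => fall fun η : W => fimp (meets (F n η)) (fground (η < ξ))))
    (fex fun x : W → Nd × ℕ → Set P => fex fun y : Γ → Nd × ℕ → Set P =>
      fall fun z : W → ℕ → Set P => fex fun γ : Γ => fall fun ξ : W => fall fun d : List ℕ → Set P =>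
        fex fun β : W => fnot (fiff (IllN (x β) (y γ)) (UN e ξ (z β) d)))

section

variable {W : Type} [LinearOrder W] [WellFoundedLT W]

theorem exists_a (hb : ∀ S : Set W, S.Countable → ∃ i, ∀ j ∈ S, j < i)
    (hW : ∀ w : W, (Iio w).Countable) :
    ∃ a : W → ℕ → W, (∀ w i j, i < j → a w i < a w j) ∧ ∀ w w' i j, w < w' → a w i < a w' j := by
  classical
  choose g hg using fun S : {S : Set W // S.Countable} => hb S.1 S.2
  let bd : Set W → W := fun S => if h : S.Countable then g ⟨S, h⟩ else g ⟨∅, countable_empty⟩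
  have hbd : ∀ S : Set W, S.Countable → ∀ j ∈ S, j < bd S := by
    intro S hS j hj
    simp only [bd, dif_pos hS]
    exact hg ⟨S, hS⟩ j hj
  let a : W → ℕ → W := (wellFounded_lt : WellFounded ((· < ·) : W → W → Prop)).fix
    fun w rec n => (fun v => bd {v})^[n] (bd {v | ∃ w', ∃ h : w' < w, ∃ j, rec w' h j = v})
  have ha : ∀ w n, a w n = (fun v => bd {v})^[n] (bd {v | ∃ w', ∃ _ : w' < w, ∃ j, a w' j = v}) := by
    intro w n
    conv_lhs => simp only [a]
    rw [WellFounded.fix_eq]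
  have h1 : ∀ w i j, i < j → a w i < a w j := by
    intro w i j hij
    have : StrictMono (a w) := strictMono_nat_of_lt_succ fun n => by
      rw [ha w (n + 1), Function.iterate_succ_apply', ← ha w n]
      exact hbd {a w n} (countable_singleton _) _ rfl
    exact this hij
  refine ⟨a, h1, fun w w' i j hw => ?_⟩
  have h2 : a w i < a w' 0 := by
    rw [ha w' 0, Function.iterate_zero, id]
    apply hbd
    · have : {v | ∃ w'', ∃ _ : w'' < w', ∃ j, a w'' j = v} ⊆ ⋃ w'' ∈ Iio w', range (a w'') := by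
        rintro v ⟨w'', h, j, rfl⟩
        exact mem_biUnion h ⟨j, rfl⟩
      exact ((hW w').biUnion fun _ _ => countable_range _).mono this
    · exact ⟨w, hw, i, rfl⟩
  rcases Nat.eq_zero_or_pos j with rfl | hj
  · exact h2
  · exact h2.trans (h1 _ _ _ hj)

end

theorem reg_UN {P W : Type} [Preorder P] [LinearOrder W] [WellFoundedLT W] {e : W → ℕ → W} {ξ : W}
    {z : ℕ → Set P} {d : List ℕ → Set P} : Reg (UN e ξ z d) :=
  ⟨fun _ h _ hq => UN_down h hq, fun _ h => UN_dense h⟩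

theorem reg_IllN {P : Type} [Preorder P] {x y : Nd × ℕ → Set P} : Reg (IllN x y) := reg_fex _

theorem mem_addF {Bx Γ W : Type} [LinearOrder W] {α : Bx → W} (p : Cnd Bx Γ W α) (β : Bx) :
    β ∈ (p.addF β).F := by
  classical
  exact Finset.mem_insert_self _ _

theorem mem_addE {Bx Γ W : Type} [LinearOrder W] {α : Bx → W} (p : Cnd Bx Γ W α) (γ : Γ) :
    γ ∈ (p.addE γ).E := by
  classical
  exact Finset.mem_insert_self _ _

theorem forced {W Γ : Type} [LinearOrder W] [WellFoundedLT W]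
    (hb : ∀ S : Set W, S.Countable → ∃ i, ∀ j ∈ S, j < i) (hW : ∀ w : W, (Iio w).Countable)
    (hW1 : #W ≤ ℵ_ 1) (hΓ : ℵ_ 1 < #Γ) (e : W → ℕ → W) (p : Cnd W Γ W id) :
    p ∈ HypN (Cnd W Γ W id) W Γ e := by
  classical
  have hccc : CCC (Cnd W Γ W id) := ccc hW
  obtain ⟨a, ha, ha'⟩ := exists_a hb hW
  refine ⟨fun F => mem_fimp.2 fun q _ hF => ⟨q, le_rfl, ?_⟩, ?_⟩
  · obtain ⟨i, hi⟩ := hb (⋃ n, {j | ∃ r ≤ q, r ∈ meets (F n j)})
      (countable_iUnion fun n => values_countable hccc hF n)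
    refine mem_fex_self i fun r hr n j => mem_fimp.mpr fun u hu huj => ⟨u, le_rfl, ?_⟩
    exact hi j (mem_iUnion.mpr ⟨n, u, hu.trans hr, huj⟩)
  · refine mem_fex_self xN fun q _ => mem_fex_self yN fun q' _ z => ?_
    choose A B hA hB hAB using fun x : W × ℕ => exists_supp hccc (z x.1 x.2)
    obtain ⟨γ, hγ⟩ : ∃ γ : Γ, ∀ x, γ ∉ B x := by
      by_contra hcon
      push Not at hcon
      have h1 : (Set.univ : Set Γ) ⊆ ⋃ x, B x := fun γ _ => mem_iUnion.2 (hcon γ)
      have h2 : #Γ ≤ ℵ_ 1 := by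
        rw [← Cardinal.mk_univ]
        refine (Cardinal.mk_le_mk_of_subset h1).trans ((Cardinal.mk_iUnion_le B).trans ?_)
        have h3 : #(W × ℕ) ≤ ℵ_ 1 := by
          rw [Cardinal.mk_prod, Cardinal.lift_id, Cardinal.lift_id, Cardinal.mk_nat]
          calc #W * ℵ₀ ≤ ℵ_ 1 * ℵ_ 1 := mul_le_mul' hW1 (Cardinal.aleph0_le_aleph 1)
            _ = ℵ_ 1 := Cardinal.mul_eq_self (Cardinal.aleph0_le_aleph 1)
        calc #(W × ℕ) * ⨆ i, #(B i) ≤ ℵ_ 1 * ℵ_ 1 := mul_le_mul' h3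
              (ciSup_le' fun i => (Cardinal.le_aleph0_iff_set_countable.2 (hB i)).trans
                (Cardinal.aleph0_le_aleph 1))
          _ = ℵ_ 1 := Cardinal.mul_eq_self (Cardinal.aleph0_le_aleph 1)
      exact absurd hΓ (not_lt.2 h2)
    refine mem_fex_self γ fun q'' _ ξ d => mem_fex.2 fun q _ => ?_
    choose A' B' hA' hB' hAB' using fun l : List ℕ => exists_supp hccc (d l)
    obtain ⟨β₀, hβ₀⟩ := hb ((⋃ l, A' l) ∪ q.F ∪ {a (a ξ 4) 1})
      (((countable_iUnion hA').union (Finset.countable_toSet _)).union (countable_singleton _))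
    have hβ1 : ∀ l, β₀ ∉ A' l := fun l h =>
      (hβ₀ β₀ (Or.inl (Or.inl (mem_iUnion.2 ⟨l, h⟩)))).false
    have hβ2 : β₀ ∉ q.F := fun h => (hβ₀ β₀ (Or.inl (Or.inr h))).false
    have hβ3 : a (a ξ 4) 1 < β₀ := hβ₀ _ (Or.inr rfl)
    by_contra hcon
    push Not at hcon
    set q1 := (q.addF β₀).addE γ with hq1
    have hq1q : q1 ≤ q := (Cnd.addE_le _ _).trans (Cnd.addF_le _ _)
    have hF : β₀ ∈ q1.F := (Cnd.addE_le (q.addF β₀) γ).1 (mem_addF q β₀)
    have hE : γ ∈ q1.E := mem_addE _ γ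
    have hok : ∀ τ : WithTop W, (τ = ⊤ ∨ τ < (id β₀ : W)) → Ok q1 β₀ γ [] τ := by
      intro τ hτ
      refine ⟨hF, hE, ?_, ?_, ?_, hτ⟩
      · intro b _ hb _
        simp only [hq1, Cnd.addE, Cnd.addF, if_neg hβ2] at hb
      · intro t ht hne
        exact absurd (List.prefix_nil.1 ht) hne
      · intro t ht hne
        exact absurd (List.prefix_nil.1 ht) hne
    obtain ⟨i, hi⟩ := exists_fresh q1.D []
    have ok1 := hok ⊤ (Or.inl rfl)
    have ok2 := hok (a (a ξ 4) 0 : W) (Or.inr (WithTop.coe_lt_coe.2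
      ((ha _ _ _ (by norm_num)).trans hβ3)))
    set p1 := q1.addN ok1 i hi with hp1
    set p2 := q1.addN ok2 i hi with hp2
    have hrt : Rt β₀ γ (a (a ξ 4) 0 : W) p1 p2 := by
      refine ⟨rfl, rfl, rfl, rfl, rfl, ?_, ?_⟩
      · intro β γ' s h
        simp only [hp1, hp2, Cnd.addN]
        rw [if_neg, if_neg]
        · exact fun h' => h ⟨h'.1, h'.2.1⟩
        · exact fun h' => h ⟨h'.1, h'.2.1⟩
      · intro s _
        by_cases hs : s = []
        · right
          subst hs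
          rw [hp1, hp2, Cnd.addN_val, Cnd.addN_val]
          exact ⟨le_top, le_rfl⟩
        · left
          simp only [hp1, hp2, Cnd.addN]
          rw [if_neg, if_neg]
          · exact fun h' => hs h'.2.2
          · exact fun h' => hs h'.2.2
    have hreg : Reg (fiff (IllN (xN β₀) (yN γ)) (UN e ξ (z β₀) d) : Set (Cnd W Γ W id)) :=
      reg_fand (reg_fimp reg_IllN.1) (reg_fimp reg_UN.1)
    have hin : ∀ r ≤ q, r ∈ (fiff (IllN (xN β₀) (yN γ)) (UN e ξ (z β₀) d) : Set (Cnd W Γ W id)) := by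
      intro r hr
      apply hreg.2
      intro u hu
      have := hcon u (hu.trans hr) β₀
      simp only [fnot, Set.mem_ofPred_eq, not_forall, not_not] at this
      obtain ⟨v, hv, h⟩ := this
      exact ⟨v, hv, h⟩
    have hp1q : p1 ≤ q := (Cnd.addN_le ok1 i hi).trans hq1q
    have hp2q : p2 ≤ q := (Cnd.addN_le ok2 i hi).trans hq1q
    have hill1 : p1 ∈ IllN (xN β₀) (yN γ) := ill_of_top hF hE (Cnd.addN_mem ok1 i hi)
      (Cnd.addN_val ok1 i hi)
    have hill2 : p2 ∈ fnot (IllN (xN β₀) (yN γ)) := not_ill hF hE (Cnd.addN_mem ok2 i hi) (by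
      rw [Cnd.addN_val ok2 i hi]
      exact WithTop.coe_ne_top)
    have hu1 : p1 ∈ UN e ξ (z β₀) d := reg_UN.mp reg_IllN.1 (hin p1 hp1q).1 hill1
    have hu2 : p2 ∈ UN e ξ (z β₀) d := un_transfer ha ha' (β₀ := β₀) (γ₀ := γ)
      (fun k => hAB (β₀, k) β₀ γ (Or.inr (hγ (β₀, k)))) ξ d
      (fun l => hAB' l β₀ γ (Or.inl (hβ1 l))) (a ξ 4) le_rfl
      (((ha _ _ _ (by norm_num)).trans hβ3).le) p1 p2 hrt hu1
    exact hill2 p2 le_rfl (reg_IllN.mp reg_UN.1 (hin p2 hp2q).2 hu2)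

/-! ### The set `ω₁` -/

/-- the set `ω₁` -/
abbrev W1 : Type := (Ordinal.omega.{0} 1).ToType

theorem mk_W1 : #W1 = ℵ_ 1 := by rw [Cardinal.mk_toType, Ordinal.card_omega]

instance : Nonempty W1 := by
  rw [← Cardinal.mk_ne_zero_iff, mk_W1]
  exact ((Cardinal.aleph_pos 1).ne')

theorem exists_gt_all (S : Set W1) (hS : S.Countable) : ∃ b, ∀ j ∈ S, j < b := by
  by_contra hcon
  push Not at hcon
  have h1 : (Set.univ : Set W1) ⊆ ⋃ j ∈ S, Iic j := fun b _ => by
    obtain ⟨j, hj, hn⟩ := hcon b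
    exact mem_biUnion hj hn
  have h2 : (⋃ j ∈ S, Iic j).Countable := hS.biUnion fun j _ => by
    have h3 : Iic j = insert j (Iio j) := (Iio_insert).symm
    rw [h3]
    exact (Pool.Agent.R582.NR.countable_Iio_omega j).insert _
  have h3 : #W1 ≤ ℵ₀ := by
    rw [← Cardinal.mk_univ]
    exact Cardinal.le_aleph0_iff_set_countable.mpr (h2.mono h1)
  rw [mk_W1] at h3
  exact absurd h3 (not_le.2 Cardinal.aleph0_lt_aleph_one)

theorem forced_main (Γ : Type) (hΓ : ℵ_ 1 < #Γ) (e : W1 → ℕ → W1) (p : Cnd W1 Γ W1 id) :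
    p ∈ HypN (Cnd W1 Γ W1 id) W1 Γ e :=
  forced exists_gt_all Pool.Agent.R582.NR.countable_Iio_omega mk_W1.le hΓ e p

theorem exists_enum : ∃ e : W1 → ℕ → W1, ∀ ξ η, η < ξ → ∃ m, e ξ m = η := by
  have h : ∀ ξ : W1, ∃ f : ℕ → W1, ∀ η < ξ, ∃ m, f m = η := by
    intro ξ
    obtain ⟨f, hf⟩ := ((Pool.Agent.R582.NR.countable_Iio_omega ξ).insert ξ).exists_eq_range
      ⟨ξ, mem_insert _ _⟩
    refine ⟨f, fun η hη => ?_⟩
    have : η ∈ range f := by
      rw [← hf]
      exact mem_insert_of_mem _ hη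
    exact this
  choose e he using h
  exact ⟨e, he⟩

end Pool.Agent.R582.SB
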