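import Mathlib
import Pool.Agent.R582.SB.Borel

set_option autoImplicit false

/-!
# The hypothesis and its consequences in ZFC
-/

namespace Pool.Agent.R582.SB

open Set Cardinal MeasureTheory

/-- The sets `x` and `y` of pairs (node, natural number) have the property that some infinite
branch has all its nodes `s` in the tree coded by them: there is a set `S` of nodes which contains
the root, contains with each node some immediate successor of it, and for each `s ∈ S` there is `i`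
with `(s, i)` in both `x` and `y`. -/
def Ill (x y : Nd × ℕ → Prop) : Prop :=
  ∃ S : Nd → Prop, S [] ∧ (∀ s, S s → ∃ k : ℕ, S (s ++ [k])) ∧ ∀ s, S s → ∃ i, x (s, i) ∧ y (s, i)

/-- The hypothesis: every function from `ℕ` to `W` is bounded, and there are sets `x β`, `β ∈ W`, and
`y γ`, `γ ∈ Γ`, such that for every family of sets `z β ⊆ ℕ`, `β ∈ W`, there is `γ` such that for no
code `d` and level `ξ` is `U e ξ (z β) d` equivalent to `Ill (x β) (y γ)` for all `β`. -/
def Hyp (W Γ : Type) [LinearOrder W] [WellFoundedLT W] (e : W → ℕ → W) : Prop :=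
  (∀ F : ℕ → W → Prop, (∀ n, ∃! η, F n η) → ∃ ξ, ∀ n η, F n η → η < ξ) ∧
    ∃ (x : W → Nd × ℕ → Prop) (y : Γ → Nd × ℕ → Prop), ∀ z : W → ℕ → Prop, ∃ γ, ∀ ξ d, ∃ β,
      ¬ (Ill (x β) (y γ) ↔ U e ξ (z β) d)

section

variable {W Γ : Type} [LinearOrder W] [WellFoundedLT W] [Nonempty W] {e : W → ℕ → W}

theorem exists_code (he : ∀ ξ η, η < ξ → ∃ m, e ξ m = η) (h : Hyp W Γ e) {E : Type} (A : ℕ → Set E)
    {B : Set E} (hB : MeasurableSet[MeasurableSpace.generateFrom (range A)] B) :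
    ∃ ξ d, ∀ t, t ∈ B ↔ U e ξ (fun n => t ∈ A n) d := by
  have hb : ∀ f : ℕ → W, ∃ ξ, ∀ n, f n < ξ := by
    intro f
    obtain ⟨ξ, hξ⟩ := h.1 (fun n η => η = f n) (fun n => ⟨f n, rfl, fun _ h => h⟩)
    exact ⟨ξ, fun n => hξ n _ rfl⟩
  have key : ∀ B : ℕ → Set E, (∀ n, ∃ ξ d, ∀ t, t ∈ B n ↔ U e ξ (fun n => t ∈ A n) d) →
      ∃ ξ d, ∀ t, t ∈ (⋃ n, (B n)ᶜ) ↔ U e ξ (fun n => t ∈ A n) d := by
    intro B hB
    choose ξ d hd using hB
    obtain ⟨ζ, hζ⟩ := hb ξ
    choose m hm using fun n => he ζ (ξ n) (hζ n)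
    let D : List ℕ → Prop := fun l => (∃ n, l = [1, n, m n]) ∨ ∃ n l', l = 0 :: n :: l' ∧ d n l'
    have hD : ∀ n, (fun l => D (0 :: n :: l)) = d n := by
      intro n
      funext l
      apply propext
      constructor
      · rintro (⟨k, hk⟩ | ⟨k, l', hk, hd⟩)
        · simp at hk
        · simp only [List.cons.injEq, true_and] at hk
          obtain ⟨rfl, rfl⟩ := hk
          exact hd
      · exact fun h => Or.inr ⟨n, l, rfl, h⟩
    refine ⟨ζ, D, fun t => ?_⟩
    rw [U_iff, mem_iUnion]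
    constructor
    · rintro ⟨n, hn⟩
      refine Or.inl ⟨n, ⟨m n, by rw [hm]; exact hζ n⟩, Or.inl ⟨n, rfl⟩, ?_⟩
      rw [hD, hm]
      exact fun hU => hn ((hd n t).2 hU)
    · rintro (⟨n, ⟨k, hk⟩, h1, h2⟩ | ⟨k, h1, -⟩)
      · refine ⟨n, fun hn => h2 ?_⟩
        have h3 : k = m n := by
          rcases h1 with ⟨n', h1⟩ | ⟨n', l', h1, -⟩
          · simp only [List.cons.injEq, true_and, and_true] at h1
            rw [h1.2, h1.1]
          · simp at h1
        rw [hD]
        simp only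
        rw [h3, hm]
        exact (hd n t).1 hn
      · exfalso
        rcases h1 with ⟨n', h1⟩ | ⟨n', l', h1, -⟩
        · simp at h1
        · simp at h1
  have hcompl : ∀ B : Set E, (∃ ξ d, ∀ t, t ∈ B ↔ U e ξ (fun n => t ∈ A n) d) →
      ∃ ξ d, ∀ t, t ∈ Bᶜ ↔ U e ξ (fun n => t ∈ A n) d := by
    intro B hB
    obtain ⟨ξ, d, h⟩ := key (fun _ => B) (fun _ => hB)
    exact ⟨ξ, d, fun t => by rw [← h t, iUnion_const]⟩
  have w0 : W := Classical.arbitrary W
  induction B, hB using MeasurableSpace.generateFrom_induction with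
  | hC B hB _ =>
    obtain ⟨n, rfl⟩ := hB
    refine ⟨w0, fun l => l = [2, n], fun t => ?_⟩
    rw [U_iff]
    constructor
    · exact fun ht => Or.inr ⟨n, rfl, ht⟩
    · rintro (⟨k, m, h1, -⟩ | ⟨k, h1, h2⟩)
      · simp at h1
      · simp only [List.cons.injEq, true_and, and_true] at h1
        rw [h1] at h2
        exact h2
  | empty =>
    refine ⟨w0, fun _ => False, fun t => ?_⟩
    rw [U_iff]
    constructor
    · exact fun ht => absurd ht (notMem_empty t)
    · rintro (⟨k, m, h1, -⟩ | ⟨k, h1, h2⟩)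
      · exact h1.elim
      · exact h1.elim
  | compl B _ ih => exact hcompl B ih
  | iUnion B _ ih =>
    obtain ⟨ξ, d, h⟩ := key (fun n => (B n)ᶜ) (fun n => hcompl _ (ih n))
    refine ⟨ξ, d, fun t => ?_⟩
    rw [← h t]
    simp only [compl_compl]

theorem core (he : ∀ ξ η, η < ξ → ∃ m, e ξ m = η) (h : Hyp W Γ e) {E : Type}
    {φ : E → Nd × ℕ → Prop} (hφ : Function.Surjective φ) (A : ℕ → Set E) :
    ∃ y : Nd × ℕ → Prop, ¬ MeasurableSet[MeasurableSpace.generateFrom (range A)] {t | Ill (φ t) y} := by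
  obtain ⟨x, y, hxy⟩ := h.2
  choose t ht using fun β => hφ (x β)
  obtain ⟨γ, hγ⟩ := hxy fun β n => t β ∈ A n
  refine ⟨y γ, fun hm => ?_⟩
  obtain ⟨ξ, d, hd⟩ := exists_code he h A hm
  obtain ⟨β, hβ⟩ := hγ ξ d
  apply hβ
  have h1 := hd (t β)
  rw [mem_ofPred_eq, ht β] at h1
  exact h1

end

/-! ### Analytic subsets of the unit interval -/

section

open MeasurableSpace

theorem measurable_body {X : Type} [MeasurableSpace X]
    (f : X → Nd × ℕ → Prop) (g : X → Nd → Prop) (y : Nd × ℕ → Prop)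
    (hf : ∀ a, MeasurableSet {p | f p a}) (hg : ∀ s, MeasurableSet {p | g p s}) :
    MeasurableSet {p : X | g p [] ∧ (∀ s, g p s → ∃ k : ℕ, g p (s ++ [k])) ∧
      ∀ s, g p s → ∃ i, f p (s, i) ∧ y (s, i)} := by
  have h1 : MeasurableSet {p : X | ∀ s, g p s → ∃ k : ℕ, g p (s ++ [k])} := by
    simp only [ofPred_forall]
    refine MeasurableSet.iInter fun s => (MeasurableSet.imp (hg s) ?_)
    simp only [ofPred_exists]
    exact MeasurableSet.iUnion fun k => hg _
  have h2 : MeasurableSet {p : X | ∀ s, g p s → ∃ i, f p (s, i) ∧ y (s, i)} := by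
    simp only [ofPred_forall]
    refine MeasurableSet.iInter fun s => (MeasurableSet.imp (hg s) ?_)
    simp only [ofPred_exists]
    exact MeasurableSet.iUnion fun i => (hf _).inter (MeasurableSet.const _)
  exact (hg []).inter (h1.inter h2)

theorem mk_codes : #(Nd × ℕ → Prop) = 𝔠 := by
  rw [← Cardinal.power_def]
  simp

theorem exists_equiv : Nonempty (unitInterval ≃ᵐ (Nd × ℕ → Prop)) := by
  have h1 : ¬ Countable (Nd × ℕ → Prop) := by
    intro h
    have := Cardinal.mk_le_aleph0 (α := Nd × ℕ → Prop)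
    rw [mk_codes] at this
    exact absurd this (not_le.2 Cardinal.aleph0_lt_continuum)
  have h2 : ¬ Countable unitInterval := by
    intro h
    have := Cardinal.mk_le_aleph0 (α := unitInterval)
    rw [Cardinal.mk_Icc_real zero_lt_one] at this
    exact absurd this (not_le.2 Cardinal.aleph0_lt_continuum)
  exact ⟨PolishSpace.measurableEquivOfNotCountable h2 h1⟩

theorem analytic_of (φ : unitInterval ≃ᵐ (Nd × ℕ → Prop)) (y : Nd × ℕ → Prop) :
    AnalyticSet {t | Ill (φ t) y} := by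
  have h : {t | Ill (φ t) y} = Prod.fst '' {p : unitInterval × (Nd × ℕ → Prop) |
      p.2 ([], 0) ∧ (∀ s, p.2 (s, 0) → ∃ k : ℕ, p.2 (s ++ [k], 0)) ∧
      ∀ s, p.2 (s, 0) → ∃ i, φ p.1 (s, i) ∧ y (s, i)} := by
    ext t
    constructor
    · rintro ⟨S, h1, h2, h3⟩
      exact ⟨(t, fun a => S a.1), ⟨h1, h2, h3⟩, rfl⟩
    · rintro ⟨⟨t', S⟩, ⟨h1, h2, h3⟩, rfl⟩
      exact ⟨fun s => S (s, 0), h1, h2, h3⟩
  rw [h]
  have hev : ∀ a : Nd × ℕ, Measurable fun u : Nd × ℕ → Prop => u a := fun a => measurable_pi_apply a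
  refine MeasurableSet.analyticSet_image (measurable_body
    (fun p : unitInterval × (Nd × ℕ → Prop) => φ p.1)
    (fun (p : unitInterval × (Nd × ℕ → Prop)) s => p.2 (s, 0)) y (fun a => ?_) (fun s => ?_)) measurable_fst
  · exact measurableSet_setOfPred.2 ((hev a).comp (φ.measurable.comp measurable_fst))
  · exact measurableSet_setOfPred.2 ((hev (s, 0)).comp measurable_snd)

variable {W Γ : Type} [LinearOrder W] [WellFoundedLT W] [Nonempty W] {e : W → ℕ → W}

theorem not_all_analytic (he : ∀ ξ η, η < ξ → ∃ m, e ξ m = η) (h : Hyp W Γ e)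
    (A : ℕ → Set unitInterval) :
    ∃ B : Set unitInterval, AnalyticSet B ∧ ¬ MeasurableSet[generateFrom (range A)] B := by
  obtain ⟨φ⟩ := exists_equiv
  obtain ⟨y, hy⟩ := core he h φ.surjective A
  exact ⟨_, analytic_of φ y, hy⟩

end

/-! ### Projective sets over a sequence of sets -/

section

variable {E : Type}

/-- the `σ`-algebra on `E ^ n` generated by the rectangles with sides among the sets `A m` -/
abbrev Rn (A : ℕ → Set E) (n : ℕ) : MeasurableSpace (Fin n → E) :=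
  MeasurableSpace.generateFrom {T | ∃ m : Fin n → ℕ, T = {v | ∀ i, v i ∈ A (m i)}}

/-- the families `𝒫_k(E ^ n)`; the index `k` is shifted by one -/
def Pn (A : ℕ → Set E) : ℕ → ∀ n : ℕ, Set (Fin n → E) → Prop
  | 0, n, S => ∃ T, MeasurableSet[Rn A (n + 1)] T ∧ S = (fun v i => v (Fin.castSucc i)) '' T
  | k + 1, n, S => ∃ T, Pn A k (n + 1) T ∧ S = (fun v i => v (Fin.castSucc i)) '' Tᶜ

/-- `S ⊆ E` is projective over the sequence `A` -/
def Proj (A : ℕ → Set E) (S : Set E) : Prop := ∃ k, Pn A k 1 {v | v 0 ∈ S}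

open Classical in
theorem proj_of (φ : E → Nd × ℕ → Prop) (hφ : Function.Surjective φ) :
    ∃ A : ℕ → Set E, ∀ y : Nd × ℕ → Prop, Proj A {t | Ill (φ t) y} := by
  obtain ⟨c⟩ : Nonempty ((Nd × ℕ) ≃ ℕ) := nonempty_equiv_of_countable
  refine ⟨fun m => if m = 0 then Set.univ else {t | φ t (c.symm (m - 1))}, fun y => ⟨0, ?_⟩⟩
  set A : ℕ → Set E := fun m => if m = 0 then Set.univ else {t | φ t (c.symm (m - 1))} with hA
  have hA0 : A 0 = Set.univ := by simp [hA]
  have hA1 : ∀ a, A (c a + 1) = {t | φ t a} := by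
    intro a
    simp [hA]
  have hm : ∀ (j : Fin 2) (a : Nd × ℕ), MeasurableSet[Rn A 2] {v | φ (v j) a} := by
    intro j a
    apply MeasurableSpace.measurableSet_generateFrom
    refine ⟨fun i => if i = j then c a + 1 else 0, ?_⟩
    ext v
    simp only [mem_ofPred_eq]
    constructor
    · intro h i
      split_ifs with hi
      · rw [hA1, hi]
        exact h
      · rw [hA0]
        exact mem_univ _
    · intro h
      have := h j
      rw [if_pos rfl, hA1] at this
      exact this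
  refine ⟨{v | φ (v 1) ([], 0) ∧ (∀ s, φ (v 1) (s, 0) → ∃ k : ℕ, φ (v 1) (s ++ [k], 0)) ∧
      ∀ s, φ (v 1) (s, 0) → ∃ i, φ (v 0) (s, i) ∧ y (s, i)}, ?_, ?_⟩
  · exact @measurable_body (Fin 2 → E) (Rn A 2) (fun v => φ (v 0)) (fun v s => φ (v 1) (s, 0)) y
      (fun a => hm 0 a) (fun s => hm 1 _)
  · ext v
    constructor
    · rintro ⟨S, h1, h2, h3⟩
      obtain ⟨u, hu⟩ := hφ fun a => S a.1
      refine ⟨![v 0, u], ⟨?_, ?_, ?_⟩, ?_⟩
      · simp only [Matrix.cons_val_one, Matrix.cons_val_fin_one, hu]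
        exact h1
      · simp only [Matrix.cons_val_one, Matrix.cons_val_fin_one, hu]
        exact h2
      · simp only [Matrix.cons_val_one, Matrix.cons_val_fin_one, Matrix.cons_val_zero, hu]
        exact h3
      · funext i
        rw [Subsingleton.elim i 0]
        rfl
    · rintro ⟨w, ⟨h1, h2, h3⟩, rfl⟩
      exact ⟨fun s => φ (w 1) (s, 0), h1, h2, h3⟩

variable {W Γ : Type} [LinearOrder W] [WellFoundedLT W] [Nonempty W] {e : W → ℕ → W}

theorem not_proj (he : ∀ ξ η, η < ξ → ∃ m, e ξ m = η) (h : Hyp W Γ e) (hE : #E = 𝔠) :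
    ∃ A : ℕ → Set E, ∀ B : ℕ → Set E, ∃ S : Set E, Proj A S ∧
      ¬ MeasurableSet[MeasurableSpace.generateFrom (range B)] S := by
  obtain ⟨φ⟩ := Cardinal.eq.1 (hE.trans mk_codes.symm)
  obtain ⟨A, hA⟩ := proj_of φ φ.surjective
  refine ⟨A, fun B => ?_⟩
  obtain ⟨y, hy⟩ := core he h φ.surjective B
  exact ⟨_, hA y, hy⟩

end

end Pool.Agent.R582.SB
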